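import Pool.Agent.H.MP_44257e_co.AF4

/-!
# MP_44257e_co: affine pairs over the field with two elements: cosets
-/

namespace MP44257e

open Module

section

variable {F : Type*} [Field F] [Fintype F] {n : ℕ}

open Classical in
/-- a coset as a finite set -/
noncomputable def cos (U : Submodule F (Fin n → F)) (a : (Fin n → F) ⧸ U) : Finset (Fin n → F) :=
  Finset.univ.filter fun w => Submodule.Quotient.mk w = a

theorem mem_cos {U : Submodule F (Fin n → F)} {a : (Fin n → F) ⧸ U} {w : Fin n → F} :
    w ∈ cos U a ↔ Submodule.Quotient.mk w = a := by simp [cos]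

theorem card_quot {U : Submodule F (Fin n → F)} {k : ℕ} (h : finrank F U = k) :
    Fintype.card F ^ k * Nat.card ((Fin n → F) ⧸ U) = Fintype.card F ^ n := by
  classical
  have h1 := Submodule.card_eq_card_quotient_mul_card U
  rw [Nat.card_eq_fintype_card (α := Fin n → F), Fintype.card_fun, Fintype.card_fin,
    Nat.card_eq_fintype_card (α := U), Module.card_eq_pow_finrank (K := F) (V := U), h] at h1
  rw [h1]

theorem card_cos (U : Submodule F (Fin n → F)) (a : (Fin n → F) ⧸ U) :
    (cos U a).card = Fintype.card F ^ finrank F U := by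
  classical
  obtain ⟨w₀, rfl⟩ := Submodule.Quotient.mk_surjective U a
  have h : cos U (Submodule.Quotient.mk w₀) =
      (Finset.univ.filter fun w => w ∈ U).image (fun w => w + w₀) := by
    ext w
    rw [mem_cos, Submodule.Quotient.eq, Finset.mem_image]
    constructor
    · intro h
      exact ⟨w - w₀, by simpa using h, by abel⟩
    · rintro ⟨w', hw', rfl⟩
      simpa using hw'
  rw [h, Finset.card_image_of_injective _ (add_left_injective w₀), ← Fintype.card_subtype]
  exact Module.card_eq_pow_finrank (K := F) (V := U)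

theorem cos_inter [DecidableEq (Fin n → F)] (U U' : Submodule F (Fin n → F)) (a : (Fin n → F) ⧸ U)
    (a' : (Fin n → F) ⧸ U') : (cos U a ∩ cos U' a').card = 0 ∨
      (cos U a ∩ cos U' a').card =
        Fintype.card F ^ finrank F (U ⊓ U' : Submodule F (Fin n → F)) := by
  by_cases h : cos U a ∩ cos U' a' = ∅
  · left; rw [h, Finset.card_empty]
  · right
    obtain ⟨w₀, hw₀⟩ := Finset.nonempty_iff_ne_empty.2 h
    rw [Finset.mem_inter, mem_cos, mem_cos] at hw₀
    rw [← card_cos (U ⊓ U') (Submodule.Quotient.mk w₀)]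
    congr 1
    ext w
    rw [Finset.mem_inter, mem_cos, mem_cos, mem_cos, ← hw₀.1, ← hw₀.2, Submodule.Quotient.eq,
      Submodule.Quotient.eq, Submodule.Quotient.eq, Submodule.mem_inf]

theorem cos_inter_self [DecidableEq (Fin n → F)] (U : Submodule F (Fin n → F)) {a b : (Fin n → F) ⧸ U}
    (h : a ≠ b) : cos U a ∩ cos U b = ∅ := by
  rw [Finset.eq_empty_iff_forall_notMem]
  intro w hw
  rw [Finset.mem_inter, mem_cos, mem_cos] at hw
  exact h (hw.1.symm.trans hw.2)

theorem finrank_inf_lt {k : ℕ} {U U' : Submodule F (Fin n → F)} (hU : finrank F U = k)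
    (hU' : finrank F U' = k) (hne : U ≠ U') :
    finrank F (U ⊓ U' : Submodule F (Fin n → F)) < k := by
  by_contra hcon
  have h1 : finrank F (U ⊓ U' : Submodule F (Fin n → F)) ≤ k := by
    rw [← hU]; exact Submodule.finrank_mono inf_le_left
  have h2 : finrank F (U ⊓ U' : Submodule F (Fin n → F)) = k := by omega
  have h3 : U ⊓ U' = U := Submodule.eq_of_le_of_finrank_eq inf_le_left (by rw [h2, hU])
  have h4 : U ⊓ U' = U' := Submodule.eq_of_le_of_finrank_eq inf_le_right (by rw [h2, hU'])
  exact hne (by rw [← h3, h4])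

/-- the index type of the binary affine design -/
abbrev IxB (F : Type*) [Field F] (l : ℕ) : Type _ :=
  (Σ U : {U : Submodule F (Fin (2 * l) → F) // finrank F U = l},
    ((Fin (2 * l) → F) ⧸ U.1) × ((Fin (2 * l) → F) ⧸ perp U.1)) ⊕
  (Σ Y : {Y : Submodule F (Fin (2 * l) → F) // finrank F Y = l + 1},
    ((Fin (2 * l) → F) ⧸ Y.1) × Bool)

/-- the blocks -/
noncomputable def blB {l : ℕ} : IxB F l → Finset ((Fin (2 * l) → F) ⊕ (Fin (2 * l) → F))
  | .inl ⟨U, a, b⟩ => (cos U.1 a).disjSum (cos (perp U.1) b)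
  | .inr ⟨Y, a, true⟩ => (cos Y.1 a).disjSum ∅
  | .inr ⟨Y, a, false⟩ => (∅ : Finset (Fin (2 * l) → F)).disjSum (cos Y.1 a)

theorem blB_card (hF : Fintype.card F = 2) {l : ℕ} (i : IxB F l) : (blB i).card = 2 ^ (l + 1) := by
  rcases i with ⟨⟨U, hU⟩, a, b⟩ | ⟨⟨Y, hY⟩, a, _ | _⟩
  · change ((cos U a).disjSum (cos (perp U) b)).card = _
    rw [Finset.card_disjSum, card_cos, card_cos, finrank_perp, hU, hF,
      show 2 * l - l = l by omega, pow_succ]
    ring
  · change ((∅ : Finset (Fin (2 * l) → F)).disjSum (cos Y a)).card = _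
    rw [Finset.card_disjSum, card_cos, hY, hF, Finset.card_empty, zero_add]
  · change ((cos Y a).disjSum (∅ : Finset (Fin (2 * l) → F))).card = _
    rw [Finset.card_disjSum, card_cos, hY, hF, Finset.card_empty, add_zero]

end

end MP44257e
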