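import Pool.Agent.H.MP_44257e_co.AB1

/-!
# MP_44257e_co: affine pairs over the field with two elements: the family
-/

namespace MP44257e

open Module

variable {F : Type*} [Field F] [Fintype F]

/-- `0` or a power `2^j` with `j ≤ l`. -/
def OkN (l N : ℕ) : Prop := N = 0 ∨ ∃ j, j ≤ l ∧ N = 2 ^ j

theorem OkN.mem {l N : ℕ} (h : OkN l N) : N ∈ affT 2 (l + 1) := by
  rcases h with h | ⟨j, hj, rfl⟩
  · rw [h]; exact mem_affT_zero _ _
  · exact mem_affT_pow (by omega)

theorem okN_cos (hF : Fintype.card F = 2) {l k : ℕ} [DecidableEq (Fin (2 * l) → F)]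
    {U U' : Submodule F (Fin (2 * l) → F)}
    (a : (Fin (2 * l) → F) ⧸ U) (a' : (Fin (2 * l) → F) ⧸ U')
    (h : finrank F (U ⊓ U' : Submodule F (Fin (2 * l) → F)) = k) :
    (cos U a ∩ cos U' a').card = 0 ∨ (cos U a ∩ cos U' a').card = 2 ^ k := by
  rcases cos_inter U U' a a' with h1 | h1
  · exact Or.inl h1
  · right; rw [h1, hF, h]

theorem blB_inter [DecidableEq F] (hF : Fintype.card F = 2) {l : ℕ} (i j : IxB F l) (hij : i ≠ j) :
    OkN l (blB i ∩ blB j).card := by
  have hmix : ∀ (U Y : Submodule F (Fin (2 * l) → F)) (a : (Fin (2 * l) → F) ⧸ U)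
      (b : (Fin (2 * l) → F) ⧸ Y), finrank F U = l → OkN l (cos U a ∩ cos Y b).card := by
    intro U Y a b hU
    have h1 : finrank F (U ⊓ Y : Submodule F (Fin (2 * l) → F)) ≤ l :=
      (Submodule.finrank_mono inf_le_left).trans hU.le
    rcases okN_cos hF a b rfl with h | h
    · exact Or.inl h
    · exact Or.inr ⟨_, h1, h⟩
  have hAB : ∀ (U : {U : Submodule F (Fin (2 * l) → F) // finrank F U = l})
      (a : (Fin (2 * l) → F) ⧸ U.1) (b : (Fin (2 * l) → F) ⧸ perp U.1)
      (Y : {Y : Submodule F (Fin (2 * l) → F) // finrank F Y = l + 1})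
      (c : (Fin (2 * l) → F) ⧸ Y.1) (t : Bool),
      OkN l (blB (F := F) (.inl ⟨U, a, b⟩) ∩ blB (.inr ⟨Y, c, t⟩)).card := by
    intro U a b Y c t
    have hp : finrank F (perp U.1) = l := by rw [finrank_perp, U.2]; omega
    cases t
    · change OkN l ((cos U.1 a).disjSum (cos (perp U.1) b) ∩
        (∅ : Finset (Fin (2 * l) → F)).disjSum (cos Y.1 c)).card
      rw [disjSum_inter, Finset.card_disjSum, Finset.inter_empty, Finset.card_empty, zero_add]
      exact hmix _ _ _ _ hp
    · change OkN l ((cos U.1 a).disjSum (cos (perp U.1) b) ∩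
        (cos Y.1 c).disjSum (∅ : Finset (Fin (2 * l) → F))).card
      rw [disjSum_inter, Finset.card_disjSum, Finset.inter_empty, Finset.card_empty, add_zero]
      exact hmix _ _ _ _ U.2
  rcases i with ⟨U, a, b⟩ | ⟨Y, c, t⟩ <;> rcases j with ⟨U', a', b'⟩ | ⟨Y', c', t'⟩
  · change OkN l ((cos U.1 a).disjSum (cos (perp U.1) b) ∩
      (cos U'.1 a').disjSum (cos (perp U'.1) b')).card
    rw [disjSum_inter, Finset.card_disjSum]
    by_cases hU : U = U'
    · subst hU
      have hne : ¬ (a = a' ∧ b = b') := by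
        rintro ⟨rfl, rfl⟩; exact hij rfl
      have hp : finrank F (perp U.1) = l := by rw [finrank_perp, U.2]; omega
      by_cases ha : a = a'
      · subst ha
        have hb : b ≠ b' := fun h => hne ⟨rfl, h⟩
        rw [cos_inter_self _ hb, Finset.card_empty, add_zero, Finset.inter_self, card_cos, U.2, hF]
        exact Or.inr ⟨l, le_rfl, rfl⟩
      · rw [cos_inter_self _ ha, Finset.card_empty, zero_add]
        rcases okN_cos hF b b' rfl with h | h
        · exact Or.inl h
        · refine Or.inr ⟨_, ?_, h⟩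
          exact (Submodule.finrank_mono inf_le_left).trans hp.le
    · have hne : U.1 ≠ U'.1 := fun h => hU (Subtype.ext h)
      have hlt := finrank_inf_lt U.2 U'.2 hne
      have hpp := finrank_perp_inf U.2 U'.2
      rcases okN_cos hF a a' rfl with h1 | h1 <;> rcases okN_cos hF b b' hpp with h2 | h2 <;>
        rw [h1, h2]
      · exact Or.inl rfl
      · exact Or.inr ⟨_, hlt.le, zero_add _⟩
      · exact Or.inr ⟨_, hlt.le, add_zero _⟩
      · refine Or.inr ⟨_, hlt, ?_⟩
        rw [pow_succ]; ring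
  · exact hAB _ _ _ _ _ _
  · rw [Finset.inter_comm]; exact hAB _ _ _ _ _ _
  · cases t <;> cases t'
    · change OkN l ((∅ : Finset (Fin (2 * l) → F)).disjSum (cos Y.1 c) ∩
        (∅ : Finset (Fin (2 * l) → F)).disjSum (cos Y'.1 c')).card
      rw [disjSum_inter, Finset.card_disjSum, Finset.inter_empty, Finset.card_empty, zero_add]
      by_cases hY : Y = Y'
      · subst hY
        have hc : c ≠ c' := by rintro rfl; exact hij rfl
        rw [cos_inter_self _ hc, Finset.card_empty]
        exact Or.inl rfl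
      · have hlt := finrank_inf_lt Y.2 Y'.2 (fun h => hY (Subtype.ext h))
        rcases okN_cos hF c c' rfl with h | h
        · exact Or.inl h
        · exact Or.inr ⟨_, by omega, h⟩
    · change OkN l ((∅ : Finset (Fin (2 * l) → F)).disjSum (cos Y.1 c) ∩
        (cos Y'.1 c').disjSum (∅ : Finset (Fin (2 * l) → F))).card
      rw [disjSum_inter, Finset.card_disjSum, Finset.inter_empty, Finset.empty_inter,
        Finset.card_empty]
      exact Or.inl rfl
    · change OkN l ((cos Y.1 c).disjSum (∅ : Finset (Fin (2 * l) → F)) ∩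
        (∅ : Finset (Fin (2 * l) → F)).disjSum (cos Y'.1 c')).card
      rw [disjSum_inter, Finset.card_disjSum, Finset.inter_empty, Finset.empty_inter,
        Finset.card_empty]
      exact Or.inl rfl
    · change OkN l ((cos Y.1 c).disjSum (∅ : Finset (Fin (2 * l) → F)) ∩
        (cos Y'.1 c').disjSum (∅ : Finset (Fin (2 * l) → F))).card
      rw [disjSum_inter, Finset.card_disjSum, Finset.inter_empty, Finset.card_empty, add_zero]
      by_cases hY : Y = Y'
      · subst hY
        have hc : c ≠ c' := by rintro rfl; exact hij rfl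
        rw [cos_inter_self _ hc, Finset.card_empty]
        exact Or.inl rfl
      · have hlt := finrank_inf_lt Y.2 Y'.2 (fun h => hY (Subtype.ext h))
        rcases okN_cos hF c c' rfl with h | h
        · exact Or.inl h
        · exact Or.inr ⟨_, by omega, h⟩

theorem blB_three [DecidableEq F] (hF : Fintype.card F = 2) {l : ℕ} (hl : 2 ≤ l) : ∃ i j k : IxB F l, ∀ s,
    (blB i ∩ blB j ∩ blB k).card ≠
      (affT 2 (l + 1) ++ [2 ^ (l + 1), 2 ^ (2 * l + 1)]).getD s 0 := by
  have hS : ∀ a, a ≤ 2 → finrank F (ES F (Sa l a)) = l := fun a ha => by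
    rw [finrank_ES, card_Sa hl ha]
  refine ⟨.inl ⟨⟨ES F (Sa l 0), hS 0 (by omega)⟩, Submodule.Quotient.mk 0, Submodule.Quotient.mk 0⟩,
    .inl ⟨⟨ES F (Sa l 1), hS 1 (by omega)⟩, Submodule.Quotient.mk 0, Submodule.Quotient.mk 0⟩,
    .inl ⟨⟨ES F (Sa l 2), hS 2 (by omega)⟩, Submodule.Quotient.mk 0, Submodule.Quotient.mk 0⟩, ?_⟩
  intro s
  have hcos : ∀ U U' : Submodule F (Fin (2 * l) → F),
      cos U (Submodule.Quotient.mk 0) ∩ cos U' (Submodule.Quotient.mk 0) =
        cos (U ⊓ U') (Submodule.Quotient.mk 0) := by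
    intro U U'
    ext w
    rw [Finset.mem_inter, mem_cos, mem_cos, mem_cos, Submodule.Quotient.eq, Submodule.Quotient.eq,
      Submodule.Quotient.eq, Submodule.mem_inf]
  have hcard : (blB (F := F) (.inl ⟨⟨ES F (Sa l 0), hS 0 (by omega)⟩, Submodule.Quotient.mk 0,
      Submodule.Quotient.mk 0⟩) ∩
      blB (.inl ⟨⟨ES F (Sa l 1), hS 1 (by omega)⟩, Submodule.Quotient.mk 0,
        Submodule.Quotient.mk 0⟩) ∩
      blB (.inl ⟨⟨ES F (Sa l 2), hS 2 (by omega)⟩, Submodule.Quotient.mk 0,
        Submodule.Quotient.mk 0⟩)).card = 2 ^ (l - 1) + 2 ^ (l - 2) := by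
    change (((cos (ES F (Sa l 0)) (Submodule.Quotient.mk 0)).disjSum
        (cos (perp (ES F (Sa l 0))) (Submodule.Quotient.mk 0)) ∩
      (cos (ES F (Sa l 1)) (Submodule.Quotient.mk 0)).disjSum
        (cos (perp (ES F (Sa l 1))) (Submodule.Quotient.mk 0))) ∩
      (cos (ES F (Sa l 2)) (Submodule.Quotient.mk 0)).disjSum
        (cos (perp (ES F (Sa l 2))) (Submodule.Quotient.mk 0))).card = _
    rw [disjSum_inter, disjSum_inter, Finset.card_disjSum, hcos, hcos, hcos, hcos, perp_ES, perp_ES,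
      perp_ES, ES_inf, ES_inf, ES_inf, ES_inf, card_cos, card_cos, finrank_ES, finrank_ES,
      card_Sa_inter hl, card_Sa_compl hl, hF]
  rw [hcard]
  obtain ⟨k, rfl⟩ : ∃ k, l = k + 2 := ⟨l - 2, by omega⟩
  simp only [Nat.add_sub_cancel, show k + 2 - 1 = k + 1 by omega]
  have hpos : 0 < 2 ^ k := pow_pos (by omega) k
  have h1 : 2 ^ (k + 1) = 2 * 2 ^ k := by rw [pow_succ]; ring
  have h2 : 2 ^ (k + 2) = 4 * 2 ^ k := by rw [pow_succ, pow_succ]; ring
  rcases getD_affT 2 (k + 2 + 1) (2 * (k + 2) + 1) s with h | ⟨j, h⟩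
  · rw [h]; omega
  · rw [h]
    intro heq
    have h3 : 2 ^ (k + 1) < 2 ^ j := by omega
    have h4 : 2 ^ j < 2 ^ (k + 2) := by omega
    have h5 := (Nat.pow_lt_pow_iff_right (show 1 < 2 by omega)).1 h3
    have h6 := (Nat.pow_lt_pow_iff_right (show 1 < 2 by omega)).1 h4
    omega

end MP44257e
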