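import Pool.Agent.H.MP_44257e_co.AB2

/-!
# MP_44257e_co: affine pairs over the field with two elements: (ii) fails
-/

namespace MP44257e

open Module

variable {F : Type*} [Field F] [Fintype F]

theorem card_IxB (hF : Fintype.card F = 2) (l : ℕ) (hl : 1 ≤ l) [Fintype (IxB F l)] :
    Fintype.card (IxB F l) =
      Nat.card {U : Submodule F (Fin (2 * l) → F) // finrank F U = l} * (2 ^ l * 2 ^ l) +
      Nat.card {Y : Submodule F (Fin (2 * l) → F) // finrank F Y = l + 1} * (2 ^ (l - 1) * 2) := by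
  classical
  have hquot : ∀ (U : Submodule F (Fin (2 * l) → F)) (k : ℕ), finrank F U = k → k ≤ 2 * l →
      Nat.card ((Fin (2 * l) → F) ⧸ U) = 2 ^ (2 * l - k) := by
    intro U k hk hk2
    have h := card_quot hk
    rw [hF] at h
    have h2 : 2 ^ (2 * l) = 2 ^ k * 2 ^ (2 * l - k) := by rw [← pow_add]; congr 1; omega
    rw [h2] at h
    exact Nat.eq_of_mul_eq_mul_left (pow_pos (by omega) k) h
  haveI : Fintype {U : Submodule F (Fin (2 * l) → F) // finrank F U = l} := Fintype.ofFinite _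
  haveI : Fintype {U : Submodule F (Fin (2 * l) → F) // finrank F U = l + 1} := Fintype.ofFinite _
  rw [← Nat.card_eq_fintype_card, Nat.card_sum, Nat.card_sigma, Nat.card_sigma]
  congr 1
  · have h1 : ∀ U : {U : Submodule F (Fin (2 * l) → F) // finrank F U = l},
        Nat.card (((Fin (2 * l) → F) ⧸ U.1) × ((Fin (2 * l) → F) ⧸ perp U.1)) = 2 ^ l * 2 ^ l := by
      intro U
      rw [Nat.card_prod, hquot U.1 l U.2 (by omega),
        hquot (perp U.1) l (by rw [finrank_perp, U.2]; omega) (by omega),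
        show 2 * l - l = l by omega]
    rw [Finset.sum_congr rfl fun U _ => h1 U, Finset.sum_const, smul_eq_mul, Finset.card_univ,
      Nat.card_eq_fintype_card]
  · have h1 : ∀ U : {U : Submodule F (Fin (2 * l) → F) // finrank F U = l + 1},
        Nat.card (((Fin (2 * l) → F) ⧸ U.1) × Bool) = 2 ^ (l - 1) * 2 := by
      intro U
      rw [Nat.card_prod, hquot U.1 (l + 1) U.2 (by omega), show 2 * l - (l + 1) = l - 1 by omega,
        Nat.card_eq_fintype_card (α := Bool), Fintype.card_bool]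
    rw [Finset.sum_congr rfl fun U _ => h1 U, Finset.sum_const, smul_eq_mul, Finset.card_univ,
      Nat.card_eq_fintype_card]

theorem card_IxB_eq_bound (hF : Fintype.card F = 2) (l : ℕ) (hl : 1 ≤ l) [Fintype (IxB F l)] :
    (Fintype.card (IxB F l) : ℚ) = bound (affT 2 (l + 1)) (2 ^ (l + 1)) (2 ^ (2 * l + 1)) := by
  classical
  have hV : finrank F (Fin (2 * l) → F) = 2 * l := finrank_fin_fun F
  have h1 := card_subspaces (F := F) (V := Fin (2 * l) → F) (m := l) hV (by omega)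
  have h2 := card_subspaces (F := F) (V := Fin (2 * l) → F) (m := l + 1) hV (by omega)
  rw [hF] at h1 h2
  have hcast : ∀ k N, k ≤ N →
      ((∏ i : Fin k, (2 ^ N - 2 ^ (i : ℕ)) : ℕ) : ℚ) =
        ∏ i : Fin k, ((2 : ℚ) ^ N - (2 : ℚ) ^ (i : ℕ)) := by
    intro k N hN
    rw [Nat.cast_prod]
    refine Finset.prod_congr rfl fun i _ => ?_
    rw [Nat.cast_sub (Nat.pow_le_pow_right (by omega) (by omega)), Nat.cast_pow, Nat.cast_pow,
      Nat.cast_ofNat]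
  have g1 := congrArg (Nat.cast : ℕ → ℚ) h1
  have g2 := congrArg (Nat.cast : ℕ → ℚ) h2
  rw [Nat.cast_mul, hcast _ _ le_rfl, hcast _ _ (by omega)] at g1
  rw [Nat.cast_mul, hcast _ _ le_rfl, hcast _ _ (by omega)] at g2
  have hb := bound_affT (q := 2) le_rfl (l + 1) (2 * l + 1)
  rw [Nat.cast_ofNat] at hb
  -- the shift of the products
  have hD : ∏ i : Fin (l + 1), ((2 : ℚ) ^ (l + 1) - (2 : ℚ) ^ (i : ℕ)) =
      ((2 : ℚ) ^ (l + 1) - 1) * (2 ^ l * ∏ i : Fin l, ((2 : ℚ) ^ l - (2 : ℚ) ^ (i : ℕ))) := by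
    have h0 : ((2 : ℚ) ^ (l + 1) - (2 : ℚ) ^ (((0 : Fin (l + 1)) : Fin (l + 1)) : ℕ)) =
        (2 : ℚ) ^ (l + 1) - 1 := by simp
    have : ∀ i : Fin l, ((2 : ℚ) ^ (l + 1) - (2 : ℚ) ^ ((i.succ : Fin (l + 1)) : ℕ)) =
        2 * ((2 : ℚ) ^ l - (2 : ℚ) ^ (i : ℕ)) := by
      intro i
      rw [Fin.val_succ, pow_succ, pow_succ]; ring
    rw [Fin.prod_univ_succ, h0, Finset.prod_congr rfl fun i _ => this i, Finset.prod_mul_distrib,
      Finset.prod_const, Finset.card_univ, Fintype.card_fin]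
  have hE : ∏ i : Fin (l + 1), ((2 : ℚ) ^ (2 * l + 1) - (2 : ℚ) ^ (i : ℕ)) =
      ((2 : ℚ) ^ (2 * l + 1) - 1) * (2 ^ l * ∏ i : Fin l, ((2 : ℚ) ^ (2 * l) - (2 : ℚ) ^ (i : ℕ))) := by
    have h0 : ((2 : ℚ) ^ (2 * l + 1) - (2 : ℚ) ^ (((0 : Fin (l + 1)) : Fin (l + 1)) : ℕ)) =
        (2 : ℚ) ^ (2 * l + 1) - 1 := by simp
    have : ∀ i : Fin l, ((2 : ℚ) ^ (2 * l + 1) - (2 : ℚ) ^ ((i.succ : Fin (l + 1)) : ℕ)) =
        2 * ((2 : ℚ) ^ (2 * l) - (2 : ℚ) ^ (i : ℕ)) := by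
      intro i
      rw [Fin.val_succ, pow_succ, pow_succ]; ring
    rw [Fin.prod_univ_succ, h0, Finset.prod_congr rfl fun i _ => this i, Finset.prod_mul_distrib,
      Finset.prod_const, Finset.card_univ, Fintype.card_fin]
  have hE2 : ∏ i : Fin (l + 1), ((2 : ℚ) ^ (2 * l) - (2 : ℚ) ^ (i : ℕ)) =
      (∏ i : Fin l, ((2 : ℚ) ^ (2 * l) - (2 : ℚ) ^ (i : ℕ))) * ((2 : ℚ) ^ (2 * l) - (2 : ℚ) ^ l) := by
    rw [Fin.prod_univ_castSucc]
    simp
  have hDne : ∏ i : Fin (l + 1), ((2 : ℚ) ^ (l + 1) - (2 : ℚ) ^ (i : ℕ)) ≠ 0 := by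
    refine Finset.prod_ne_zero_iff.2 fun i _ => ?_
    have : (2 : ℚ) ^ (i : ℕ) < (2 : ℚ) ^ (l + 1) := pow_lt_pow_right₀ (by norm_num) i.2
    linarith
  refine mul_right_cancel₀ hDne ?_
  rw [hb, card_IxB hF l hl]
  have hdiv : (2 : ℚ) ^ (2 * l + 1) / (2 : ℚ) ^ (l + 1) = 2 ^ l := by
    rw [div_eq_iff (by positivity), ← pow_add]; congr 1; omega
  rw [hdiv, hE]
  push_cast
  have e2 : (2 : ℚ) ^ (l - 1) * 2 = 2 ^ l := by rw [← pow_succ]; congr 1; omega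
  rw [e2, add_mul, mul_right_comm _ ((2 : ℚ) ^ l) (∏ i : Fin (l + 1), _), g2, hE2]
  rw [hD]
  set N₁ : ℚ := (Nat.card {U : Submodule F (Fin (2 * l) → F) // finrank F U = l} : ℚ)
  set D₁ : ℚ := ∏ i : Fin l, ((2 : ℚ) ^ l - (2 : ℚ) ^ (i : ℕ))
  set E₁ : ℚ := ∏ i : Fin l, ((2 : ℚ) ^ (2 * l) - (2 : ℚ) ^ (i : ℕ))
  have e3 : (2 : ℚ) ^ (2 * l) = 2 ^ l * 2 ^ l := by rw [← pow_add]; congr 1; omega
  have e4 : (2 : ℚ) ^ (2 * l + 1) = 2 ^ l * 2 ^ l * 2 := by rw [pow_succ, e3]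
  have e5 : (2 : ℚ) ^ (l + 1) = 2 ^ l * 2 := pow_succ _ _
  rw [e3, e4, e5]
  linear_combination ((2 : ℚ) ^ l * 2 ^ l * (2 ^ l * 2 - 1) * 2 ^ l) * g1

/-- The threshold of every affine pair with `q = 2`, `m ≥ 3` is at least `2^(2m-1)`. -/
theorem threshold_two {m : ℕ} (hm : 3 ≤ m) : ¬ Good (affT 2 m) (2 ^ m) (2 ^ (2 * m - 1)) := by
  obtain ⟨l, rfl⟩ : ∃ l, m = l + 1 := ⟨m - 1, by omega⟩
  rw [show 2 * (l + 1) - 1 = 2 * l + 1 by omega]
  have : Fact (Nat.Prime 2) := ⟨Nat.prime_two⟩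
  have hF : Fintype.card (ZMod 2) = 2 := ZMod.card 2
  haveI : Fintype (IxB (ZMod 2) l) := Fintype.ofFinite _
  have hT : ∀ t ∈ affT 2 (l + 1), t < 2 ^ (l + 1) := by
    intro t ht
    rcases List.mem_cons.1 ht with h | h
    · rw [h]; exact pow_pos (by omega) _
    · obtain ⟨i, hi, rfl⟩ := List.mem_map.1 h
      exact Nat.pow_lt_pow_right (by omega) (List.mem_range.1 hi)
  refine not_good_of_three (P := (Fin (2 * l) → ZMod 2) ⊕ (Fin (2 * l) → ZMod 2)) ?_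
    (blB (F := ZMod 2) (l := l)) (fun i => blB_card hF i)
    (fun i j hij => (blB_inter hF i j hij).mem) hT (card_IxB_eq_bound hF l (by omega))
    (blB_three hF (l := l) (by omega))
  rw [Fintype.card_sum, Fintype.card_fun, Fintype.card_fin, hF, pow_succ, mul_two]

end MP44257e
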