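import Pool.Agent.H.MP_44257e_co.PG5

/-!
# MP_44257e_co: affine pairs, q at least 3
-/

namespace MP44257e

open Module

/-- The increasing list `0, 1, q, ..., q^(m-1)`. -/
def affT (q m : ℕ) : List ℕ := 0 :: (List.range m).map (fun i => q ^ i)

theorem mem_affT_zero (q m : ℕ) : 0 ∈ affT q m := by simp [affT]

theorem mem_affT_pow {q m i : ℕ} (h : i < m) : q ^ i ∈ affT q m := by
  rw [affT, List.mem_cons, List.mem_map]
  exact Or.inr ⟨i, List.mem_range.2 h, rfl⟩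

theorem getD_affT (q m N i : ℕ) :
    (affT q m ++ [q ^ m, q ^ N]).getD i 0 = 0 ∨ ∃ j, (affT q m ++ [q ^ m, q ^ N]).getD i 0 = q ^ j := by
  by_cases h : i < (affT q m ++ [q ^ m, q ^ N]).length
  · rw [List.getD_eq_getElem _ _ h]
    have h1 := List.getElem_mem h
    rw [List.mem_append] at h1
    rcases h1 with h1 | h1
    · rcases List.mem_cons.1 h1 with h2 | h2
      · exact Or.inl h2
      · obtain ⟨j, -, hj⟩ := List.mem_map.1 h2
        exact Or.inr ⟨j, hj.symm⟩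
    · rw [List.mem_cons, List.mem_singleton] at h1
      rcases h1 with h1 | h1
      · exact Or.inr ⟨m, h1⟩
      · exact Or.inr ⟨N, h1⟩
  · rw [List.getD_eq_default _ _ (not_lt.1 h)]
    exact Or.inl rfl

theorem bound_affT {q : ℕ} (hq : 2 ≤ q) (m N : ℕ) :
    bound (affT q m) (q ^ m) (q ^ N) * ∏ i : Fin m, ((q : ℚ) ^ m - (q : ℚ) ^ (i : ℕ)) =
      (q : ℚ) ^ N / (q : ℚ) ^ m * ∏ i : Fin m, ((q : ℚ) ^ N - (q : ℚ) ^ (i : ℕ)) := by
  have hq0 : (1 : ℚ) < q := by exact_mod_cast hq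
  unfold bound affT
  rw [List.map_cons, List.prod_cons, List.map_map, list_prod_range, mul_assoc,
    ← Finset.prod_mul_distrib]
  simp only [Function.comp, Nat.cast_pow, Nat.cast_zero, sub_zero]
  congr 1
  refine Finset.prod_congr rfl fun i _ => ?_
  have h2 : (q : ℚ) ^ m - (q : ℚ) ^ (i : ℕ) ≠ 0 := by
    have : (q : ℚ) ^ (i : ℕ) < (q : ℚ) ^ m := pow_lt_pow_right₀ hq0 i.2
    linarith
  field_simp

/-- The bound for hyperplanes. -/
theorem bound_affT_hyp {q : ℕ} (hq : 2 ≤ q) (m : ℕ) :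
    bound (affT q m) (q ^ m) (q ^ (m + 1)) = (q : ℚ) * (gn q (m + 1) : ℕ) := by
  have hq0 : (1 : ℚ) < q := by exact_mod_cast hq
  have hq1 : (q : ℚ) - 1 ≠ 0 := by linarith
  have hqn : (q : ℚ) ≠ 0 := by linarith
  have hP : ∏ i : Fin m, ((q : ℚ) ^ m - (q : ℚ) ^ (i : ℕ)) ≠ 0 := by
    refine Finset.prod_ne_zero_iff.2 fun i _ => ?_
    have : (q : ℚ) ^ (i : ℕ) < (q : ℚ) ^ m := pow_lt_pow_right₀ hq0 i.2
    linarith
  refine mul_right_cancel₀ hP ?_
  rw [bound_affT hq]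
  have h1 : (q : ℚ) ^ (m + 1) / (q : ℚ) ^ m = q := by
    rw [pow_succ]; field_simp
  rw [h1, mul_assoc]
  congr 1
  -- the product for `m + 1` over `i < m`
  have h2 : ∀ k : ℕ, k ≤ m → (∏ i ∈ Finset.range k, ((q : ℚ) ^ (m + 1) - (q : ℚ) ^ i)) *
      ((q : ℚ) ^ (m + 1 - k) - 1) =
      ((q : ℚ) ^ (m + 1) - 1) * ∏ i ∈ Finset.range k, ((q : ℚ) ^ m - (q : ℚ) ^ i) := by
    intro k
    induction k with
    | zero => intro _; simp
    | succ k ih =>
      intro hk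
      have h3 := ih (by omega)
      rw [Finset.prod_range_succ, Finset.prod_range_succ]
      have e1 : (q : ℚ) ^ (m + 1) - (q : ℚ) ^ k = (q : ℚ) ^ k * ((q : ℚ) ^ (m + 1 - k) - 1) := by
        rw [mul_sub, ← pow_add, mul_one, show k + (m + 1 - k) = m + 1 by omega]
      have e2 : (q : ℚ) ^ m - (q : ℚ) ^ k = (q : ℚ) ^ k * ((q : ℚ) ^ (m + 1 - (k + 1)) - 1) := by
        rw [mul_sub, ← pow_add, mul_one, show k + (m + 1 - (k + 1)) = m by omega]
      rw [e1, e2]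
      linear_combination ((q : ℚ) ^ k * ((q : ℚ) ^ (m + 1 - (k + 1)) - 1)) * h3
  have h3 := h2 m le_rfl
  rw [← Fin.prod_univ_eq_prod_range (fun i => (q : ℚ) ^ (m + 1) - (q : ℚ) ^ i) m,
    ← Fin.prod_univ_eq_prod_range (fun i => (q : ℚ) ^ m - (q : ℚ) ^ i) m,
    show m + 1 - m = 1 by omega, pow_one] at h3
  refine mul_right_cancel₀ hq1 ?_
  rw [h3, mul_right_comm, gn_mul hq]

end MP44257e
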