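import Pool.Agent.H.MP_44257e_co.AF1

/-!
# MP_44257e_co: affine pairs, q at least 3: the family
-/

namespace MP44257e

open Module

section lin

variable {F : Type*} [Field F] [Fintype F] {n : ℕ}

/-- the dot product -/
def dt (u w : Fin n → F) : F := ∑ i, u i * w i

open Classical in
theorem card_fib {V V' : Type*} [AddCommGroup V] [Module F V] [Fintype V] [AddCommGroup V']
    [Module F V'] [Fintype V'] (f : V →ₗ[F] V') (hf : Function.Surjective f) (y : V') :
    (Finset.univ.filter fun x => f x = y).card * Fintype.card V' = Fintype.card V := by
  have h : ∀ z : V', (Finset.univ.filter fun x => f x = z).card =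
      (Finset.univ.filter fun x => f x = y).card := by
    intro z
    exact AddMonoidHom.card_fiber_eq_of_mem_range f.toAddMonoidHom (by
      obtain ⟨x, hx⟩ := hf z; exact ⟨x, hx⟩) (by obtain ⟨x, hx⟩ := hf y; exact ⟨x, hx⟩)
  have h2 := Finset.card_eq_sum_card_fiberwise (f := f) (s := (Finset.univ : Finset V))
    (t := (Finset.univ : Finset V')) (fun x _ => Finset.mem_univ _)
  rw [Finset.sum_congr rfl fun z _ => h z, Finset.sum_const, smul_eq_mul, Finset.card_univ,
    Finset.card_univ, mul_comm] at h2
  exact h2.symm

open Classical in
theorem card_eq1 (p : Projectivization F (Fin n → F)) (a : F) :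
    (Finset.univ.filter fun w => dt p.rep w = a).card * Fintype.card F = Fintype.card F ^ n := by
  let f : (Fin n → F) →ₗ[F] F := dotB F n p.rep
  have hf : Function.Surjective f := by
    obtain ⟨i, hi⟩ := Function.ne_iff.1 p.rep_nonzero
    intro c
    refine ⟨Pi.single i ((p.rep i)⁻¹ * c), ?_⟩
    change dotB F n p.rep _ = c
    rw [dotB_apply, Finset.sum_eq_single i]
    · rw [Pi.single_eq_same, ← mul_assoc, mul_inv_cancel₀ hi, one_mul]
    · intro j _ hj
      rw [Pi.single_eq_of_ne hj, mul_zero]
    · intro h; exact absurd (Finset.mem_univ i) h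
  have h := card_fib f hf a
  have e : (Finset.univ.filter fun w => f w = a) = Finset.univ.filter fun w => dt p.rep w = a := by
    ext w
    simp only [Finset.mem_filter, Finset.mem_univ, true_and]
    change dotB F n p.rep w = a ↔ _
    rw [dotB_apply]
    rfl
  rw [e] at h
  rw [h, Fintype.card_fun, Fintype.card_fin]

open Classical in
theorem card_eq2 {p p' : Projectivization F (Fin n → F)} (hp : p ≠ p') (a b : F) :
    (Finset.univ.filter fun w => dt p.rep w = a ∧ dt p'.rep w = b).card *
      (Fintype.card F * Fintype.card F) = Fintype.card F ^ n := by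
  let f : (Fin n → F) →ₗ[F] F × F := (dotB F n p.rep).prod (dotB F n p'.rep)
  have hli : LinearIndependent F ![p.rep, p'.rep] := by
    have h := (Projectivization.independent_pair_iff_ne p p').2 hp
    rw [Projectivization.independent_iff] at h
    have e : (Projectivization.rep ∘ ![p, p']) = ![p.rep, p'.rep] := by
      ext i j
      fin_cases i <;> rfl
    rw [e] at h
    exact h
  have hspan : finrank F (Submodule.span F (Set.range ![p.rep, p'.rep])) = 2 := by
    rw [finrank_span_eq_card hli, Fintype.card_fin]
  have hker : LinearMap.ker f = perp (Submodule.span F (Set.range ![p.rep, p'.rep])) := by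
    ext w
    rw [mem_perp, LinearMap.mem_ker]
    constructor
    · intro h u hu
      have h1 : dotB F n p.rep w = 0 := congrArg Prod.fst h
      have h2 : dotB F n p'.rep w = 0 := congrArg Prod.snd h
      rw [dotB_apply] at h1 h2
      induction hu using Submodule.span_induction with
      | mem x hx =>
        obtain ⟨i, rfl⟩ := hx
        fin_cases i
        · exact h1
        · exact h2
      | zero => simp
      | add x y _ _ hx hy =>
        simp only [Pi.add_apply, add_mul, Finset.sum_add_distrib, hx, hy, add_zero]
      | smul c x _ hx =>
        simp only [Pi.smul_apply, smul_eq_mul, mul_assoc, ← Finset.mul_sum, hx, mul_zero]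
    · intro h
      have h1 := h p.rep (Submodule.subset_span ⟨0, rfl⟩)
      have h2 := h p'.rep (Submodule.subset_span ⟨1, rfl⟩)
      refine Prod.ext ?_ ?_
      · change dotB F n p.rep w = 0
        rw [dotB_apply]; exact h1
      · change dotB F n p'.rep w = 0
        rw [dotB_apply]; exact h2
  have hf : Function.Surjective f := by
    rw [← LinearMap.range_eq_top]
    apply Submodule.eq_top_of_finrank_eq
    have h1 := LinearMap.finrank_range_add_finrank_ker f
    rw [hker, finrank_perp, hspan, finrank_fin_fun] at h1
    have h2 : finrank F (Submodule.span F (Set.range ![p.rep, p'.rep])) ≤ n := by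
      have := Submodule.finrank_le (Submodule.span F (Set.range ![p.rep, p'.rep]))
      rwa [finrank_fin_fun] at this
    rw [hspan] at h2
    rw [finrank_prod, finrank_self]
    omega
  have h := card_fib f hf (a, b)
  refine Eq.trans ?_ (h.trans ?_)
  · rw [Fintype.card_prod]
    congr 1
    apply congrArg Finset.card
    ext w
    simp only [Finset.mem_filter, Finset.mem_univ, true_and]
    change _ ↔ (dotB F n p.rep w, dotB F n p'.rep w) = (a, b)
    rw [Prod.mk.injEq, dotB_apply, dotB_apply]
    rfl
  · rw [Fintype.card_fun, Fintype.card_fin]

end lin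

end MP44257e
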