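import Pool.Agent.H.MP_44257e_co.AF2

/-!
# MP_44257e_co: affine pairs, q at least 3: the blocks
-/

namespace MP44257e

open Module

/-- A family given by an index type: cardinality and the property (i). -/
theorem fam_of_index {T : List ℕ} {k v : ℕ} {P ι : Type*} [Fintype P] [DecidableEq P] [Fintype ι]
    (hP : Fintype.card P = v) (B : ι → Finset P) (h1 : ∀ i, (B i).card = k)
    (h2 : ∀ i j, i ≠ j → (B i ∩ B j).card ∈ T) (hT : ∀ t ∈ T, t < k) :
    ∃ A : Finset (Finset (Fin v)), IsFam T k A ∧ A.card = Fintype.card ι ∧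
      ∃ e : P ≃ Fin v, ∀ i, (B i).map e.toEmbedding ∈ A := by
  classical
  let e : P ≃ Fin v := Fintype.equivFinOfCardEq hP
  have hinj : Function.Injective fun i => (B i).map e.toEmbedding := by
    intro i j h
    by_contra hne
    have h3 : B i = B j := Finset.map_injective _ h
    have h4 := h2 i j hne
    rw [← h3, Finset.inter_self, h1] at h4
    exact lt_irrefl _ (hT _ h4)
  refine ⟨Finset.univ.image fun i => (B i).map e.toEmbedding, ⟨?_, ?_⟩, ?_, e, ?_⟩
  · intro X hX
    obtain ⟨i, -, rfl⟩ := Finset.mem_image.1 hX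
    rw [Finset.card_map, h1]
  · intro X hX Y hY hne
    obtain ⟨i, -, rfl⟩ := Finset.mem_image.1 hX
    obtain ⟨j, -, rfl⟩ := Finset.mem_image.1 hY
    have hij : i ≠ j := fun h => hne (by rw [h])
    rw [← Finset.map_inter, Finset.card_map]
    exact h2 i j hij
  · rw [Finset.card_image_of_injective _ hinj, Finset.card_univ]
  · intro i
    exact Finset.mem_image_of_mem _ (Finset.mem_univ i)

/-- If three blocks of a family that attains the bound meet in a number of points that is not in
the `α`-sequence then (ii) fails. -/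
theorem not_good_of_three {T : List ℕ} {k v : ℕ} {P ι : Type*} [Fintype P] [DecidableEq P]
    [Fintype ι]
    (hP : Fintype.card P = v) (B : ι → Finset P) (h1 : ∀ i, (B i).card = k)
    (h2 : ∀ i j, i ≠ j → (B i ∩ B j).card ∈ T) (hT : ∀ t ∈ T, t < k)
    (hcard : (Fintype.card ι : ℚ) = bound T k v)
    (h3 : ∃ i j l, ∀ s, (B i ∩ B j ∩ B l).card ≠ (T ++ [k, v]).getD s 0) : ¬ Good T k v := by
  intro hg
  obtain ⟨A, hA, hc, e, he⟩ := fam_of_index hP B h1 h2 hT
  obtain ⟨-, h⟩ := hg A hA
  obtain ⟨M, ⟨-, hr, hα⟩, hH⟩ := h.1 (by rw [hc]; exact hcard)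
  obtain ⟨i, j, l, hs⟩ := h3
  have f0 := ((hH _).1 (he i)).1
  have f1 := ((hH _).1 (he j)).1
  have f2 := ((hH _).1 (he l)).1
  have hfl := flat_inter (flat_inter f0 f1) f2
  rw [← Finset.coe_inter, ← Finset.coe_inter] at hfl
  have hle := M.eRk_le_eRank (((((B i).map e.toEmbedding) ∩ ((B j).map e.toEmbedding)) ∩
    ((B l).map e.toEmbedding) : Finset _) : Set _)
  rw [hr] at hle
  obtain ⟨s, hs1, hs2⟩ := ENat.le_natCast_iff.1 hle
  have h4 := hα s hs2 _ hfl hs1
  rw [Set.ncard_coe_finset, ← Finset.map_inter, ← Finset.map_inter, Finset.card_map] at h4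
  exact hs s h4

section

variable {F : Type*} [Field F] [Fintype F] {m : ℕ}

theorem card_slices {W : Type*} [Fintype W] {S : Finset (W × F)} (s : F → Finset W)
    (h : ∀ x, x ∈ S ↔ x.1 ∈ s x.2) : S.card = ∑ c : F, (s c).card := by
  classical
  rw [← Finset.card_sigma]
  refine Finset.card_bij (fun x _ => ⟨x.2, x.1⟩) ?_ ?_ ?_
  · intro x hx
    rw [Finset.mem_sigma]
    exact ⟨Finset.mem_univ _, (h x).1 hx⟩
  · intro x _ y _ hxy
    rw [Sigma.mk.injEq] at hxy
    exact Prod.ext (eq_of_heq hxy.2) hxy.1
  · rintro ⟨c, w⟩ hcw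
    rw [Finset.mem_sigma] at hcw
    exact ⟨(w, c), (h (w, c)).2 hcw.2, rfl⟩

open Classical in
/-- the right hand side of the equation of a block -/
noncomputable def rhs (p₀ p : Projectivization F (Fin m → F)) (β γ c : F) : F :=
  γ - β * c + (if p = p₀ ∧ c = 0 then 1 else 0)

open Classical in
/-- the blocks -/
noncomputable def blA (p₀ : Projectivization F (Fin m → F)) :
    (Projectivization F (Fin m → F) × F × F) ⊕ F → Finset ((Fin m → F) × F)
  | .inl t => Finset.univ.filter fun x => dt t.1.rep x.1 = rhs p₀ t.1 t.2.1 t.2.2 x.2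
  | .inr c => Finset.univ.filter fun x => x.2 = c

theorem q_pos : 0 < Fintype.card F := Fintype.card_pos

open Classical in
theorem card_eq1' (hm : 1 ≤ m) (p : Projectivization F (Fin m → F)) (a : F) :
    (Finset.univ.filter fun w => dt p.rep w = a).card = Fintype.card F ^ (m - 1) := by
  have h := card_eq1 p a
  have h2 : Fintype.card F ^ m = Fintype.card F ^ (m - 1) * Fintype.card F := by
    rw [← pow_succ]; congr 1; omega
  rw [h2] at h
  exact Nat.eq_of_mul_eq_mul_right q_pos h

open Classical in
theorem card_eq2' (hm : 2 ≤ m) {p p' : Projectivization F (Fin m → F)} (hp : p ≠ p') (a b : F) :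
    (Finset.univ.filter fun w => dt p.rep w = a ∧ dt p'.rep w = b).card =
      Fintype.card F ^ (m - 2) := by
  have h := card_eq2 hp a b
  have h2 : Fintype.card F ^ m = Fintype.card F ^ (m - 2) * (Fintype.card F * Fintype.card F) := by
    rw [← mul_assoc, ← pow_succ, ← pow_succ]; congr 1; omega
  rw [h2] at h
  exact Nat.eq_of_mul_eq_mul_right (Nat.mul_pos q_pos q_pos) h

theorem blA_card (hm : 1 ≤ m) (p₀ : Projectivization F (Fin m → F))
    (i : (Projectivization F (Fin m → F) × F × F) ⊕ F) : (blA p₀ i).card = Fintype.card F ^ m := by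
  classical
  have hq : Fintype.card F * Fintype.card F ^ (m - 1) = Fintype.card F ^ m := by
    rw [mul_comm, ← pow_succ]; congr 1; omega
  rcases i with ⟨p, β, γ⟩ | c
  · rw [card_slices (fun c => Finset.univ.filter fun w => dt p.rep w = rhs p₀ p β γ c)
      (by intro x; simp [blA]), Finset.sum_congr rfl fun c _ => card_eq1' hm p _, Finset.sum_const, smul_eq_mul,
      Finset.card_univ, hq]
  · rw [card_slices (fun c' => Finset.univ.filter fun _ : Fin m → F => c' = c)
      (by intro x; simp only [blA, Finset.mem_filter, Finset.mem_univ, true_and]),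
      Finset.sum_eq_single c]
    · simp
    · intro c' _ hc'
      simp [hc']
    · intro h; exact absurd (Finset.mem_univ c) h

open Classical in
theorem blA_inter (hm : 2 ≤ m) (p₀ : Projectivization F (Fin m → F))
    (i j : (Projectivization F (Fin m → F) × F × F) ⊕ F) (hij : i ≠ j) :
    (blA p₀ i ∩ blA p₀ j).card = 0 ∨ (blA p₀ i ∩ blA p₀ j).card = Fintype.card F ^ (m - 1) := by
  have hq : Fintype.card F * Fintype.card F ^ (m - 2) = Fintype.card F ^ (m - 1) := by
    rw [mul_comm, ← pow_succ]; congr 1; omega
  have hmix : ∀ (t : Projectivization F (Fin m → F) × F × F) (c : F),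
      (blA p₀ (.inl t) ∩ blA p₀ (.inr c)).card = Fintype.card F ^ (m - 1) := by
    rintro ⟨p, β, γ⟩ c
    rw [card_slices (fun c' => Finset.univ.filter fun w => dt p.rep w = rhs p₀ p β γ c' ∧ c' = c)
      (by intro x; simp [blA]), Finset.sum_eq_single c]
    · simp only [and_true]
      exact card_eq1' (by omega) p _
    · intro c' _ hc'
      simp [hc']
    · intro h; exact absurd (Finset.mem_univ c) h
  rcases i with ⟨p, β, γ⟩ | c <;> rcases j with ⟨p', β', γ'⟩ | c'
  · by_cases hp : p = p'
    · subst hp
      have hne : ¬ (β = β' ∧ γ = γ') := by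
        rintro ⟨rfl, rfl⟩; exact hij rfl
      rw [card_slices (fun c => Finset.univ.filter fun w => dt p.rep w = rhs p₀ p β γ c ∧
        dt p.rep w = rhs p₀ p β' γ' c) (by intro x; simp [blA])]
      have hval : ∀ c, (Finset.univ.filter fun w => dt p.rep w = rhs p₀ p β γ c ∧
          dt p.rep w = rhs p₀ p β' γ' c).card =
          if γ - β * c = γ' - β' * c then Fintype.card F ^ (m - 1) else 0 := by
        intro c
        split_ifs with h
        · rw [← card_eq1' (show 1 ≤ m by omega) p (rhs p₀ p β γ c)]
          congr 1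
          ext w
          simp only [Finset.mem_filter, Finset.mem_univ, true_and]
          unfold rhs
          rw [h, and_self]
        · rw [Finset.card_eq_zero, Finset.filter_eq_empty_iff]
          rintro w - ⟨h1, h2⟩
          rw [h1] at h2
          unfold rhs at h2
          exact h (add_right_cancel h2)
      rw [Finset.sum_congr rfl fun c _ => hval c]
      by_cases hex : ∃ c, γ - β * c = γ' - β' * c
      · right
        obtain ⟨c, hc⟩ := hex
        rw [Finset.sum_eq_single c, if_pos hc]
        · intro c' _ hc'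
          rw [if_neg]
          intro h
          have h1 : (β - β') * (c - c') = 0 := by linear_combination h - hc
          rcases mul_eq_zero.1 h1 with h2 | h2
          · have h3 : β = β' := sub_eq_zero.1 h2
            apply hne
            refine ⟨h3, ?_⟩
            rw [h3] at hc
            exact sub_left_injective hc
          · exact hc' (sub_eq_zero.1 h2).symm
        · intro h; exact absurd (Finset.mem_univ c) h
      · left
        push Not at hex
        exact Finset.sum_eq_zero fun c _ => if_neg (hex c)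
    · right
      rw [card_slices (fun c => Finset.univ.filter fun w => dt p.rep w = rhs p₀ p β γ c ∧
        dt p'.rep w = rhs p₀ p' β' γ' c) (by intro x; simp [blA]), Finset.sum_congr rfl fun c _ => card_eq2' hm hp _ _, Finset.sum_const, smul_eq_mul,
        Finset.card_univ, hq]
  · exact Or.inr (hmix _ _)
  · rw [Finset.inter_comm]; exact Or.inr (hmix _ _)
  · left
    rw [Finset.card_eq_zero, blA, blA, ← Finset.filter_and, Finset.filter_eq_empty_iff]
    rintro x - ⟨h1, h2⟩
    exact hij (by rw [← h1, ← h2])

end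

end MP44257e
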