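import Pool.Agent.H.MP_44257e_co.AF3

/-!
# MP_44257e_co: affine pairs, q at least 3: (ii) fails
-/

namespace MP44257e

open Module

variable {F : Type*} [Field F] [Fintype F] {m : ℕ}

theorem gn_succ' (q m : ℕ) : gn q (m + 1) = 1 + q * gn q m := by
  unfold gn
  rw [Finset.sum_range_succ', Finset.mul_sum, pow_zero, add_comm]
  congr 1
  exact Finset.sum_congr rfl fun i _ => by rw [pow_succ, mul_comm]

theorem card_index (m : ℕ) : Fintype.card ((Projectivization F (Fin m → F) × F × F) ⊕ F) =
    Fintype.card F * gn (Fintype.card F) (m + 1) := by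
  have h : Fintype.card (Projectivization F (Fin m → F)) = gn (Fintype.card F) m := by
    rw [← Nat.card_eq_fintype_card, Projectivization.card_of_finrank F _ (finrank_fin_fun F),
      Nat.card_eq_fintype_card]
    rfl
  rw [Fintype.card_sum, Fintype.card_prod, Fintype.card_prod, h, gn_succ']
  ring

theorem dt_add (u v w : Fin m → F) : dt (u + v) w = dt u w + dt v w := by
  simp [dt, add_mul, Finset.sum_add_distrib]

theorem dt_smul (a : F) (u w : Fin m → F) : dt (a • u) w = a * dt u w := by
  simp [dt, Finset.mul_sum, mul_assoc]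

open Classical in
theorem three_blA (hq : 3 ≤ Fintype.card F) (hm : 2 ≤ m) :
    ∃ p₀ : Projectivization F (Fin m → F), ∃ i j l, ∀ s,
      (blA p₀ i ∩ blA p₀ j ∩ blA p₀ l).card ≠
        (affT (Fintype.card F) m ++ [Fintype.card F ^ m, Fintype.card F ^ (m + 1)]).getD s 0 := by
  have hcard : Fintype.card (Projectivization F (Fin m → F)) = gn (Fintype.card F) m := by
    rw [← Nat.card_eq_fintype_card, Projectivization.card_of_finrank F _ (finrank_fin_fun F),
      Nat.card_eq_fintype_card]
    rfl
  have h1 : 1 < Fintype.card (Projectivization F (Fin m → F)) := by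
    rw [hcard]
    have h2 := gn_lt (q := Fintype.card F) (by omega) (show 1 < m by omega)
    have h3 : gn (Fintype.card F) 1 = 1 := by simp [gn]
    omega
  obtain ⟨p₀, p₁, hne⟩ := Fintype.one_lt_card_iff.1 h1
  have hv : p₀.rep + p₁.rep ≠ 0 := by
    intro h
    have h2 := (Projectivization.independent_pair_iff_ne p₀ p₁).2 hne
    rw [Projectivization.independent_iff, Fintype.linearIndependent_iff] at h2
    have h3 := h2 (fun _ => 1) (by simpa [Fin.sum_univ_two] using h) 0
    exact one_ne_zero h3
  obtain ⟨a, ha⟩ := Projectivization.exists_smul_eq_mk_rep F _ hv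
  set p₂ := Projectivization.mk F (p₀.rep + p₁.rep) hv with hp₂
  have hp2 : ∀ w, dt p₂.rep w = 0 ↔ dt p₀.rep w + dt p₁.rep w = 0 := by
    intro w
    rw [← ha, Units.smul_def, dt_smul, dt_add]
    constructor
    · intro h
      exact (mul_eq_zero.1 h).resolve_left a.ne_zero
    · intro h
      rw [h, mul_zero]
  have hne2 : p₂ ≠ p₀ := by
    intro h
    have h2 := (Projectivization.independent_pair_iff_ne p₀ p₁).2 hne
    rw [Projectivization.independent_iff, Fintype.linearIndependent_iff] at h2
    have h4 : (a : F) • (p₀.rep + p₁.rep) = p₀.rep := by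
      have h5 : a • (p₀.rep + p₁.rep) = p₂.rep := ha
      rw [h] at h5
      exact h5
    have h3 := h2 ![(a : F) - 1, (a : F)] (by
      rw [Fin.sum_univ_two]
      change ((a : F) - 1) • p₀.rep + (a : F) • p₁.rep = 0
      rw [sub_smul, one_smul]
      rw [smul_add] at h4
      rw [sub_add_eq_add_sub, h4, sub_self]) 1
    exact a.ne_zero h3
  refine ⟨p₀, .inl (p₀, 0, 0), .inl (p₁, 0, 0), .inl (p₂, 0, 0), ?_⟩
  have hcount : (blA p₀ (.inl (p₀, 0, 0)) ∩ blA p₀ (.inl (p₁, 0, 0)) ∩
      blA p₀ (.inl (p₂, 0, 0))).card = (Fintype.card F - 1) * Fintype.card F ^ (m - 2) := by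
    rw [card_slices (fun c => if c = 0 then (∅ : Finset (Fin m → F)) else
      Finset.univ.filter fun w => dt p₀.rep w = 0 ∧ dt p₁.rep w = 0)]
    · rw [← Finset.add_sum_erase _ _ (Finset.mem_univ (0 : F)), if_pos rfl, Finset.card_empty,
        zero_add]
      have hval : ∀ c ∈ Finset.univ.erase (0 : F), (if c = 0 then (∅ : Finset (Fin m → F)) else
          Finset.univ.filter fun w => dt p₀.rep w = 0 ∧ dt p₁.rep w = 0).card =
          Fintype.card F ^ (m - 2) := by
        intro c hc
        rw [if_neg (Finset.ne_of_mem_erase hc), card_eq2' hm hne]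
      rw [Finset.sum_congr rfl hval, Finset.sum_const, smul_eq_mul,
        Finset.card_erase_of_mem (Finset.mem_univ _), Finset.card_univ]
    · rintro ⟨w, c⟩
      simp only [blA, rhs, Finset.mem_inter, Finset.mem_filter, Finset.mem_univ, true_and,
        zero_mul, sub_zero, zero_add, Ne.symm hne, hne2, false_and, if_false]
      by_cases hc : c = 0
      · simp only [hc, if_true, Finset.notMem_empty, iff_false]
        rintro ⟨⟨h2, h3⟩, h4⟩
        rw [hp2, h2, h3, add_zero] at h4
        exact one_ne_zero h4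
      · simp only [hc, if_false, Finset.mem_filter, Finset.mem_univ, true_and]
        constructor
        · rintro ⟨⟨h2, h3⟩, -⟩
          exact ⟨h2, h3⟩
        · rintro ⟨h2, h3⟩
          exact ⟨⟨h2, h3⟩, by rw [hp2, h2, h3, add_zero]⟩
  intro s
  rw [hcount]
  set Q := Fintype.card F with hQ
  have hpos : 0 < Q ^ (m - 2) := pow_pos (by omega) _
  have hlow : Q ^ (m - 2) < (Q - 1) * Q ^ (m - 2) := by
    have : 2 ≤ Q - 1 := by omega
    nlinarith
  have hup : (Q - 1) * Q ^ (m - 2) < Q ^ (m - 1) := by
    have e : Q ^ (m - 1) = Q * Q ^ (m - 2) := by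
      rw [mul_comm, ← pow_succ]; congr 1; omega
    rw [e]
    exact Nat.mul_lt_mul_of_pos_right (by omega) hpos
  rcases getD_affT Q m (m + 1) s with h | ⟨j, h⟩
  · rw [h]; omega
  · rw [h]
    intro heq
    rw [heq] at hlow hup
    have h2 := (Nat.pow_lt_pow_iff_right (show 1 < Q by omega)).1 hlow
    have h3 := (Nat.pow_lt_pow_iff_right (show 1 < Q by omega)).1 hup
    omega

/-- The threshold of every affine pair with `q ≥ 3`, `m ≥ 2` is at least `q^(m+1)`. -/
theorem threshold_aff {q m : ℕ} (hq : IsPrimePow q) (hq3 : 3 ≤ q) (hm : 2 ≤ m) :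
    ¬ Good (affT q m) (q ^ m) (q ^ (m + 1)) := by
  obtain ⟨p, k, hp, hk, rfl⟩ := (isPrimePow_nat_iff q).1 hq
  haveI : Fact p.Prime := ⟨hp⟩
  haveI : Fintype (GaloisField p k) := Fintype.ofFinite _
  have hc : Fintype.card (GaloisField p k) = p ^ k := by
    rw [← Nat.card_eq_fintype_card]
    exact GaloisField.card p k hk.ne'
  rw [← hc] at hq3 ⊢
  classical
  obtain ⟨p₀, h3⟩ := three_blA (F := GaloisField p k) (m := m) hq3 hm
  set Q := Fintype.card (GaloisField p k) with hQ
  have hT : ∀ t ∈ affT Q m, t < Q ^ m := by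
    intro t ht
    rcases List.mem_cons.1 ht with h | h
    · rw [h]; exact pow_pos (by omega) _
    · obtain ⟨i, hi, rfl⟩ := List.mem_map.1 h
      exact Nat.pow_lt_pow_right (by omega) (List.mem_range.1 hi)
  refine not_good_of_three (P := (Fin m → GaloisField p k) × GaloisField p k) ?_ (blA p₀) ?_ ?_ hT
    ?_ h3
  · rw [Fintype.card_prod, Fintype.card_fun, Fintype.card_fin, pow_succ]
  · intro i
    exact blA_card (by omega) p₀ i
  · intro i j hij
    rcases blA_inter hm p₀ i j hij with h | h
    · rw [h]; exact mem_affT_zero _ _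
    · rw [h]; exact mem_affT_pow (by omega)
  · rw [bound_affT_hyp (by omega), card_index]
    push_cast
    rfl

end MP44257e
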