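import Mathlib

/-!
# MP_44257e_co: thresholds for intersection families of PMD hyperplanes: definitions
-/

namespace MP44257e

/-- `A` is an `A(T, k, v)`: a family of `k`-subsets of a `v`-set any two of which meet in a
number of points that belongs to `T`. -/
def IsFam (T : List ℕ) (k : ℕ) {v : ℕ} (A : Finset (Finset (Fin v))) : Prop :=
  (∀ X ∈ A, X.card = k) ∧ ∀ X ∈ A, ∀ Y ∈ A, X ≠ Y → (X ∩ Y).card ∈ T

/-- The product of `(v - t) / (k - t)` over `t` in `T`. -/
def bound (T : List ℕ) (k v : ℕ) : ℚ :=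
  (T.map fun t : ℕ => ((v : ℚ) - (t : ℚ)) / ((k : ℚ) - (t : ℚ))).prod

/-- `M` is a perfect matroid design of rank `r` on `Fin v` with `α`-sequence `α 0, ..., α r`:
all flats of rank `i` have `α i` points. (It is simple as soon as `α 0 = 0` and `α 1 = 1`.) -/
def IsPMD {v : ℕ} (r : ℕ) (α : ℕ → ℕ) (M : Matroid (Fin v)) : Prop :=
  M.E = Set.univ ∧ M.eRank = r ∧
    ∀ i ≤ r, ∀ F : Set (Fin v), M.IsFlat F → M.eRk F = i → F.ncard = α i

/-- The set of hyperplanes (flats of rank `r - 1`) of the rank `r` matroid `M` is `A`. -/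
def IsHyperplanes {v : ℕ} (r : ℕ) (M : Matroid (Fin v)) (A : Finset (Finset (Fin v))) : Prop :=
  ∀ X : Finset (Fin v), X ∈ A ↔ M.IsFlat (X : Set (Fin v)) ∧
    M.eRk (X : Set (Fin v)) = ((r - 1 : ℕ) : ℕ∞)

/-- Properties (i) and (ii) of the problem for the number `v` and all families `A`;
`T` is the increasing list `t_0, ..., t_(r-2)`, and the `α`-sequence is
`t_0, ..., t_(r-2), k, v`. -/
def Good (T : List ℕ) (k v : ℕ) : Prop :=
  ∀ A : Finset (Finset (Fin v)), IsFam T k A →
    (A.card : ℚ) ≤ bound T k v ∧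
    ((A.card : ℚ) = bound T k v ↔ ∃ M : Matroid (Fin v),
      IsPMD (T.length + 1) (fun i => (T ++ [k, v]).getD i 0) M ∧
      IsHyperplanes (T.length + 1) M A)

/-- `N` is the threshold `N(T, k)` of the problem: the least integer such that (i) and (ii)
hold for all `v > N`. -/
def IsThreshold (T : List ℕ) (k N : ℕ) : Prop :=
  IsLeast {N : ℕ | ∀ v, N < v → Good T k v} N

end MP44257e
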