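import Mathlib
import Pool.Agent.H.MP_44257e_co.Defs

/-!
# MP_44257e_co: checking a family given by bit masks
-/

namespace MP44257e

/-- number of binary digits 1 among the last `n` digits -/
def pc : ℕ → ℕ → ℕ
  | 0, _ => 0
  | n + 1, m => m % 2 + pc n (m / 2)

/-- clear the lowest digit 1 -/
def kern (x : ℕ) : ℕ := x &&& (x - 1)

/-- number of digits 1, counted up to the first argument -/
def cnt : ℕ → ℕ → ℕ
  | 0, _ => 0
  | f + 1, x => bif Nat.beq x 0 then 0 else cnt f (kern x) + 1

/-- the set with characteristic number `m` -/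
def toSet (n m : ℕ) : Finset (Fin n) := Finset.univ.filter fun i => m.testBit i = true

def okPair (f : ℕ) (T : List ℕ) (a b : ℕ) : Bool := T.elem (cnt f (a &&& b))

def allPairs (f : ℕ) (T : List ℕ) : List ℕ → Bool
  | [] => true
  | a :: l => l.all (okPair f T a) && allPairs f T l

/-- the family with the list `L` of masks -/
def famOf (n : ℕ) (L : List ℕ) : Finset (Finset (Fin n)) := (L.map (toSet n)).toFinset

theorem card_toSet (n m : ℕ) : (toSet n m).card = pc n m := by
  unfold toSet
  rw [Finset.card_filter]
  induction n generalizing m with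
  | zero => simp [pc]
  | succ n ih =>
    rw [Fin.sum_univ_succ, pc, ← ih (m / 2)]
    congr 1
    · simp only [Fin.val_zero, Nat.testBit_zero, decide_eq_true_eq]
      rcases Nat.mod_two_eq_zero_or_one m with h | h <;> simp [h]
    · apply Finset.sum_congr rfl
      intro i _
      simp [Nat.testBit_succ]

theorem toSet_inter (n a b : ℕ) : toSet n a ∩ toSet n b = toSet n (a &&& b) := by
  ext i
  simp [toSet, Nat.testBit_and]

theorem pc_zero (n : ℕ) : pc n 0 = 0 := by
  induction n with
  | zero => rfl
  | succ n ih => simp [pc, ih]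

theorem and_mod (a b : ℕ) : (a &&& b) % 2 = (a % 2) * (b % 2) := by
  have h := Nat.testBit_and a b 0
  simp only [Nat.testBit_zero] at h
  rcases Nat.mod_two_eq_zero_or_one (a &&& b) with h1 | h1 <;>
  rcases Nat.mod_two_eq_zero_or_one a with h2 | h2 <;>
  rcases Nat.mod_two_eq_zero_or_one b with h3 | h3 <;> simp [h1, h2, h3] at h ⊢

theorem pc_kern (n x : ℕ) (h0 : x ≠ 0) (hx : x < 2 ^ n) : pc n (kern x) + 1 = pc n x := by
  induction n generalizing x with
  | zero => simp at hx; omega
  | succ n ih =>
    rcases Nat.even_or_odd' x with ⟨y, hy | hy⟩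
    · have hy0 : y ≠ 0 := by omega
      have h1 : kern x / 2 = kern y := by
        unfold kern
        rw [Nat.and_div_two]
        congr 1 <;> omega
      have h2 : kern x % 2 = 0 := by
        unfold kern
        have : (x &&& (x - 1)) % 2 = (x % 2) * ((x - 1) % 2) := by
          rw [and_mod]
        rw [this]
        have : x % 2 = 0 := by omega
        simp [this]
      rw [pc, pc, h1, h2]
      have h3 : x / 2 = y := by omega
      have h4 : x % 2 = 0 := by omega
      rw [h3, h4]
      have := ih y hy0 (by rw [pow_succ] at hx; omega)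
      omega
    · have h1 : kern x / 2 = y := by
        unfold kern
        rw [Nat.and_div_two]
        have e1 : x / 2 = y := by omega
        have e2 : (x - 1) / 2 = y := by omega
        rw [e1, e2, Nat.and_self]
      have h2 : kern x % 2 = 0 := by
        unfold kern
        have : (x &&& (x - 1)) % 2 = (x % 2) * ((x - 1) % 2) := by
          rw [and_mod]
        rw [this]
        have : (x - 1) % 2 = 0 := by omega
        simp [this]
      rw [pc, pc, h1, h2]
      have h3 : x / 2 = y := by omega
      have h4 : x % 2 = 1 := by omega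
      rw [h3, h4]
      omega

theorem kern_lt {n x : ℕ} (hx : x < 2 ^ n) : kern x < 2 ^ n :=
  lt_of_le_of_lt Nat.and_le_left hx

theorem cnt_eq (f n x : ℕ) (hx : x < 2 ^ n) : cnt f x = min f (pc n x) := by
  induction f generalizing x with
  | zero => simp [cnt]
  | succ f ih =>
    rw [cnt]
    by_cases h0 : x = 0
    · subst h0; simp [pc_zero]
    · have hb : Nat.beq x 0 = false := by
        rw [← Bool.not_eq_true, Nat.beq_eq]; exact h0
      rw [hb, cond_false, ih _ (kern_lt hx), ← pc_kern n x h0 hx]
      omega

theorem okPair_spec {f n : ℕ} {T : List ℕ} (hT : ∀ t ∈ T, t < f) {a b : ℕ} (ha : a < 2 ^ n)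
    (h : okPair f T a b = true) : (toSet n a ∩ toSet n b).card ∈ T := by
  unfold okPair at h
  have h1 : cnt f (a &&& b) ∈ T := by simpa using h
  have h2 : (a &&& b) < 2 ^ n := lt_of_le_of_lt Nat.and_le_left ha
  rw [cnt_eq f n _ h2] at h1
  rw [toSet_inter, card_toSet]
  have h3 := hT _ h1
  have h4 : min f (pc n (a &&& b)) = pc n (a &&& b) := by omega
  rwa [h4] at h1

theorem allPairs_spec {f n : ℕ} {T : List ℕ} (hT : ∀ t ∈ T, t < f) {L : List ℕ}
    (hL : ∀ a ∈ L, a < 2 ^ n) (h : allPairs f T L = true) :
    L.Pairwise fun a b => (toSet n a ∩ toSet n b).card ∈ T := by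
  induction L with
  | nil => simp
  | cons a l ih =>
    rw [allPairs, Bool.and_eq_true, List.all_eq_true] at h
    rw [List.pairwise_cons]
    refine ⟨fun b hb => okPair_spec hT (hL a (by simp)) (h.1 b hb), ih ?_ h.2⟩
    intro b hb
    exact hL b (by simp [hb])

/-- The main check. -/
theorem fam_of_check {T : List ℕ} {k n f : ℕ} {L : List ℕ} (hT : ∀ t ∈ T, t < f) (hf : f ≤ k)
    (h1 : ∀ a ∈ L, a < 2 ^ n ∧ pc n a = k) (h2 : allPairs f T L = true) :
    IsFam T k (famOf n L) ∧ (famOf n L).card = L.length := by
  have hp := allPairs_spec hT (fun a ha => (h1 a ha).1) h2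
  constructor
  · refine ⟨?_, ?_⟩
    · intro X hX
      simp only [famOf, List.mem_toFinset, List.mem_map] at hX
      obtain ⟨a, ha, rfl⟩ := hX
      rw [card_toSet]; exact (h1 a ha).2
    · intro X hX Y hY hne
      simp only [famOf, List.mem_toFinset, List.mem_map] at hX hY
      obtain ⟨a, ha, rfl⟩ := hX
      obtain ⟨b, hb, rfl⟩ := hY
      have : Std.Symm fun a b => (toSet n a ∩ toSet n b).card ∈ T := ⟨fun a b h => by
        rw [Finset.inter_comm]; exact h⟩
      exact hp.forall ha hb (fun h => hne (by rw [h]))
  · unfold famOf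
    rw [List.toFinset_card_of_nodup, List.length_map]
    have hq : L.Pairwise fun a b => toSet n a ≠ toSet n b := by
      apply (List.Pairwise.and_mem.1 hp).imp
      intro a b h
      obtain ⟨ha, _, h⟩ := h
      intro he
      rw [← he, Finset.inter_self, card_toSet, (h1 a ha).2] at h
      have := hT _ h
      omega
    exact (List.pairwise_map).2 hq

theorem not_good {T : List ℕ} {k v : ℕ} {A : Finset (Finset (Fin v))} (hA : IsFam T k A)
    (h : bound T k v < A.card) : ¬ Good T k v := fun hg => absurd (hg A hA).1 (not_le.2 h)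

theorem threshold_ge {T : List ℕ} {k v N : ℕ} (h : ¬ Good T k v) (hN : IsThreshold T k N) :
    v ≤ N := by
  by_contra hlt
  exact h (hN.1 v (not_le.1 hlt))

end MP44257e
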