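import Pool.Agent.H.MP_44257e_co.Base

/-!
# MP_44257e_co: the 253 blocks of the Steiner system S(4,7,23)
-/

namespace MP44257e

/-- the 253 blocks of the Steiner system S(4,7,23) -/
def listG : List ℕ :=
  [2787, 5574, 11148, 13481, 18493, 22296, 26962, 36986, 44592, 45333, 52609, 53924, 65947,
   73972, 82757, 89184, 90666, 99367, 105218, 107848, 131894, 138259, 139865, 147944, 155783,
   165514, 178368, 181332, 198734, 207137, 210436, 215696, 249865, 263788, 268617, 272131,
   276518, 279730, 295888, 311566, 319585, 331028, 332337, 356736, 362664, 397468, 414274,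
   420872, 428549, 431392, 459969, 499730, 527576, 537234, 544262, 545059, 553036, 559460,
   562753, 567307, 591776, 596101, 615441, 623132, 639170, 656653, 662056, 664674, 688305,
   713472, 725328, 786519, 794936, 803465, 828548, 841744, 857098, 862784, 919938, 999460,
   1050261, 1055152, 1066059, 1074468, 1079809, 1082153, 1088524, 1090118, 1106072, 1118920,
   1125506, 1134614, 1149009, 1183552, 1183845, 1192202, 1230882, 1246264, 1278340, 1313306,
   1324112, 1329348, 1347715, 1376610, 1384461, 1426944, 1450656, 1458449, 1573038, 1581505,
   1589872, 1606930, 1657096, 1683488, 1714196, 1725568, 1769987, 1838113, 1839876, 1998920,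
   2100522, 2101775, 2108485, 2110304, 2117841, 2132118, 2148936, 2159618, 2164306, 2177048,
   2180236, 2204289, 2212144, 2237840, 2246177, 2251012, 2261315, 2269228, 2298018, 2359717,
   2367104, 2367690, 2384404, 2393113, 2443267, 2461764, 2492528, 2556680, 2624273, 2626612,
   2648224, 2658696, 2687081, 2695430, 2753220, 2768922, 2853888, 2901312, 2916898, 3026945,
   3146076, 3153971, 3163010, 3179744, 3213860, 3216641, 3278985, 3314192, 3366976, 3428392,
   3451136, 3539974, 3676226, 3679752, 3719173, 3997840, 4195697, 4201044, 4203550, 4216970,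
   4220608, 4227277, 4235682, 4243987, 4263433, 4264236, 4272195, 4297872, 4319236, 4328612,
   4330369, 4354096, 4360472, 4408578, 4424288, 4466833, 4475680, 4477957, 4492354, 4502024,
   4522630, 4538456, 4587563, 4596036, 4719434, 4727333, 4734208, 4735380, 4768808, 4786226,
   4868161, 4886534, 4923528, 4985056, 5079297, 5113360, 5245191, 5248546, 5253224, 5296448,
   5317392, 5324961, 5374162, 5390860, 5415937, 5506440, 5537844, 5707776, 5771289, 5802624,
   5833796, 6053890, 6292152, 6307942, 6316297, 6326020, 6330401, 6359488, 6427720, 6433282,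
   6488085, 6557970, 6628384, 6733952, 6816899, 6856784, 6902272, 7079948, 7352452, 7359504,
   7438346, 7602753, 7995680]

theorem listG_len : listG.length = 253 := by decide +kernel

theorem listG_check : allPairs 4 [0, 1, 3] listG = true := by decide +kernel

theorem listG_size : (listG.all fun a => Nat.blt a (2 ^ 23) && Nat.beq (pc 23 a) 7) = true := by
  decide +kernel

theorem listG_fam : IsFam [0, 1, 3] 7 (famOf 23 listG) ∧ (famOf 23 listG).card = 253 := by
  have h := fam_of_check (T := [0, 1, 3]) (k := 7) (n := 23) (f := 4) (L := listG) (by decide) (by decide)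
    (by
      intro a ha
      have h := List.all_eq_true.1 listG_size a ha
      rw [Bool.and_eq_true] at h
      exact ⟨Nat.blt_eq.mp h.1, Nat.beq_eq.mp h.2⟩) listG_check
  rw [listG_len] at h
  exact h

end MP44257e
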