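import Pool.Agent.H.MP_44257e_co.G23

/-!
# MP_44257e_co: two copies of S(4,7,23) that share a point
-/

namespace MP44257e

theorem isFam_map {T : List ℕ} {k v w : ℕ} {A : Finset (Finset (Fin v))} (e : Fin v ↪ Fin w)
    (h : IsFam T k A) : IsFam T k (A.map (Finset.mapEmbedding e).toEmbedding) := by
  refine ⟨?_, ?_⟩
  · intro X hX
    obtain ⟨Y, hY, rfl⟩ := Finset.mem_map.1 hX
    simpa using h.1 Y hY
  · intro X hX Y hY hne
    obtain ⟨X', hX', rfl⟩ := Finset.mem_map.1 hX
    obtain ⟨Y', hY', rfl⟩ := Finset.mem_map.1 hY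
    have h1 : X' ≠ Y' := fun h => hne (by rw [h])
    have h2 := h.2 X' hX' Y' hY' h1
    simp only [RelEmbedding.coe_toEmbedding, Finset.mapEmbedding_apply]
    rw [← Finset.map_inter, Finset.card_map]
    exact h2

/-- Two copies of a family whose point sets share at most one point. -/
theorem glue {T : List ℕ} {k v w : ℕ} {A : Finset (Finset (Fin v))} (e f : Fin v ↪ Fin w)
    (p : Fin w) (hef : ∀ i j, e i = f j → e i = p) (h0 : 0 ∈ T) (h1 : 1 ∈ T) (hk : 2 ≤ k)
    (h : IsFam T k A) :
    ∃ B : Finset (Finset (Fin w)), IsFam T k B ∧ B.card = A.card + A.card := by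
  classical
  have he := isFam_map e h
  have hf := isFam_map f h
  have hcross : ∀ X ∈ A.map (Finset.mapEmbedding e).toEmbedding,
      ∀ Y ∈ A.map (Finset.mapEmbedding f).toEmbedding, (X ∩ Y).card ≤ 1 := by
    intro X hX Y hY
    obtain ⟨X', hX', rfl⟩ := Finset.mem_map.1 hX
    obtain ⟨Y', hY', rfl⟩ := Finset.mem_map.1 hY
    refine le_trans (Finset.card_le_card (t := {p}) ?_) (by simp)
    intro z hz
    simp only [RelEmbedding.coe_toEmbedding, Finset.mapEmbedding_apply, Finset.mem_inter,
      Finset.mem_map] at hz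
    obtain ⟨⟨i, -, hi⟩, ⟨j, -, hj⟩⟩ := hz
    rw [Finset.mem_singleton, ← hi]
    exact hef i j (by rw [hi, hj])
  have hmem : ∀ n, n ≤ 1 → n ∈ T := by
    intro n hn
    interval_cases n
    · exact h0
    · exact h1
  refine ⟨A.map (Finset.mapEmbedding e).toEmbedding ∪ A.map (Finset.mapEmbedding f).toEmbedding,
    ⟨?_, ?_⟩, ?_⟩
  · intro X hX
    rcases Finset.mem_union.1 hX with hX | hX
    · exact he.1 X hX
    · exact hf.1 X hX
  · intro X hX Y hY hne
    rcases Finset.mem_union.1 hX with hX | hX <;> rcases Finset.mem_union.1 hY with hY | hY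
    · exact he.2 X hX Y hY hne
    · exact hmem _ (hcross X hX Y hY)
    · rw [Finset.inter_comm]
      exact hmem _ (hcross Y hY X hX)
    · exact hf.2 X hX Y hY hne
  · rw [Finset.card_union_of_disjoint, Finset.card_map, Finset.card_map]
    rw [Finset.disjoint_left]
    intro X hX hX'
    have h2 := hcross X hX X hX'
    rw [Finset.inter_self, he.1 X hX] at h2
    omega

theorem exists_506 : ∃ B : Finset (Finset (Fin 45)), IsFam [0, 1, 3] 7 B ∧ B.card = 506 := by
  obtain ⟨h1, h2⟩ := listG_fam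
  obtain ⟨B, hB, hc⟩ := glue (w := 45) (Fin.castLEEmb (by norm_num : 23 ≤ 45))
    (Fin.natAddEmb 22) (22 : Fin 45) (by
      intro i j hij
      have h3 : (i : ℕ) = 22 + (j : ℕ) := congrArg Fin.val hij
      have := i.2
      apply Fin.ext
      change (i : ℕ) = 22
      omega) (by decide) (by decide) (by norm_num) h1
  refine ⟨B, hB, ?_⟩
  rw [hc, h2]

end MP44257e
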