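import Pool.Agent.H.MP_44257e_co.Base

/-!
# MP_44257e_co: the 759 octads of the Steiner system S(5,8,24)
-/

namespace MP44257e

/-- the word with coordinates `m` in the code spanned by a list of words -/
def enc : List ℕ → ℕ → ℕ
  | [], _ => 0
  | h :: t, m => (bif Nat.beq (m % 2) 1 then h else 0) ^^^ enc t (m / 2)

/-- a basis of the extended binary Golay code -/
def gB : List ℕ :=
  [11415553, 14442498, 1503236, 3006472, 6012944, 10072096, 11755584, 15122560, 6533376,
   15290880, 8164352, 14096384]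

theorem enc_xor (B : List ℕ) (a b : ℕ) : enc B (a ^^^ b) = enc B a ^^^ enc B b := by
  induction B generalizing a b with
  | nil => simp [enc]
  | cons h t ih =>
    rw [enc, enc, enc, Nat.xor_div_two, ih]
    have hm : (a ^^^ b) % 2 = (a + b) % 2 := Nat.xor_mod_two_eq
    have hb0 : (bif Nat.beq 0 1 then h else 0) = 0 := rfl
    have hb1 : (bif Nat.beq 1 1 then h else 0) = h := rfl
    rcases Nat.mod_two_eq_zero_or_one a with h1 | h1 <;>
    rcases Nat.mod_two_eq_zero_or_one b with h2 | h2
    · have h3 : (a ^^^ b) % 2 = 0 := by omega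
      rw [h1, h2, h3, hb0, Nat.zero_xor, Nat.zero_xor, Nat.zero_xor]
    · have h3 : (a ^^^ b) % 2 = 1 := by omega
      rw [h1, h2, h3, hb0, hb1, Nat.zero_xor, ← Nat.xor_assoc, ← Nat.xor_assoc,
        Nat.xor_comm h (enc t (a / 2))]
    · have h3 : (a ^^^ b) % 2 = 1 := by omega
      rw [h1, h2, h3, hb0, hb1, Nat.zero_xor, Nat.xor_assoc]
    · have h3 : (a ^^^ b) % 2 = 0 := by omega
      rw [h1, h2, h3, hb0, hb1, Nat.zero_xor]
      have e : (h ^^^ enc t (a / 2)) ^^^ (h ^^^ enc t (b / 2)) =
          (h ^^^ h) ^^^ (enc t (a / 2) ^^^ enc t (b / 2)) := by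
        simp only [Nat.xor_assoc]
        congr 1
        rw [← Nat.xor_assoc, Nat.xor_comm (enc t (a / 2)) h, Nat.xor_assoc]
      rw [e, Nat.xor_self, Nat.zero_xor]

theorem pc_xor (n a b : ℕ) : pc n (a ^^^ b) + 2 * pc n (a &&& b) = pc n a + pc n b := by
  induction n generalizing a b with
  | zero => simp [pc]
  | succ n ih =>
    have h := ih (a / 2) (b / 2)
    rw [pc, pc, pc, pc, Nat.xor_div_two, Nat.and_div_two]
    have hm : (a ^^^ b) % 2 = (a + b) % 2 := Nat.xor_mod_two_eq
    have hk : (a &&& b) % 2 = (a % 2) * (b % 2) := and_mod a b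
    rw [hm, hk]
    rcases Nat.mod_two_eq_zero_or_one a with h1 | h1 <;>
    rcases Nat.mod_two_eq_zero_or_one b with h2 | h2
    · have h3 : (a + b) % 2 = 0 := by omega
      rw [h1, h2, h3]; omega
    · have h3 : (a + b) % 2 = 1 := by omega
      rw [h1, h2, h3]; omega
    · have h3 : (a + b) % 2 = 1 := by omega
      rw [h1, h2, h3]; omega
    · have h3 : (a + b) % 2 = 0 := by omega
      rw [h1, h2, h3]; omega

theorem gB_wt : ((List.range 4096).all fun m => Nat.beq m 0 ||
    ([8, 12, 16, 24] : List ℕ).elem (pc 24 (enc gB m))) = true := by decide +kernel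

theorem gB_lt : ((List.range 4096).all fun m => Nat.blt (enc gB m) (2 ^ 24)) = true := by
  decide +kernel

/-- the coordinates of the octads -/
def octL : List ℕ := (List.range 4096).filter fun m => Nat.beq (pc 24 (enc gB m)) 8

theorem octL_len : octL.length = 759 := by decide +kernel

/-- the list of the octads, as masks -/
def listO : List ℕ := octL.map (enc gB)

theorem listO_len : listO.length = 759 := by rw [listO, List.length_map, octL_len]

theorem pc_more {n x : ℕ} (hx : x < 2 ^ n) (e : ℕ) : pc (n + e) x = pc n x := by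
  induction n generalizing x with
  | zero =>
    have : x = 0 := by simpa using hx
    subst this
    simp [pc_zero]
  | succ n ih =>
    rw [Nat.add_right_comm, pc, pc, ih (by rw [pow_succ] at hx; omega)]

theorem octL_spec {m : ℕ} (h : m ∈ octL) :
    m < 4096 ∧ enc gB m < 2 ^ 24 ∧ pc 24 (enc gB m) = 8 := by
  rw [octL, List.mem_filter] at h
  have h1 := List.all_eq_true.1 gB_lt m h.1
  refine ⟨List.mem_range.1 h.1, Nat.blt_eq.mp h1, Nat.beq_eq.mp h.2⟩

theorem oct_inter {a b : ℕ} (ha : a ∈ octL) (hb : b ∈ octL) (hab : a ≠ b) :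
    pc 24 (enc gB a &&& enc gB b) ∈ ([0, 2, 4] : List ℕ) := by
  obtain ⟨a1, a2, a3⟩ := octL_spec ha
  obtain ⟨b1, b2, b3⟩ := octL_spec hb
  have hx : a ^^^ b < 2 ^ 12 := Nat.xor_lt_two_pow (by norm_num; exact a1) (by norm_num; exact b1)
  have h0 : a ^^^ b ≠ 0 := fun h => hab (Nat.xor_eq_zero_iff.1 h)
  have h := List.all_eq_true.1 gB_wt (a ^^^ b) (List.mem_range.2 (by norm_num at hx; exact hx))
  rw [Bool.or_eq_true] at h
  have h := h.resolve_left (fun h => h0 (Nat.beq_eq.mp h))
  rw [enc_xor] at h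
  have h2 : pc 24 (enc gB a ^^^ enc gB b) ∈ ([8, 12, 16, 24] : List ℕ) := by simpa using h
  have h3 := pc_xor 24 (enc gB a) (enc gB b)
  rw [a3, b3] at h3
  simp only [List.mem_cons, List.not_mem_nil, or_false] at h2 ⊢
  omega

theorem listO_fam : IsFam [0, 1, 2, 4] 8 (famOf 33 listO) ∧ (famOf 33 listO).card = 759 := by
  have hT : ∀ X ∈ octL, ∀ Y ∈ octL, X ≠ Y →
      (toSet 33 (enc gB X) ∩ toSet 33 (enc gB Y)).card ∈ ([0, 2, 4] : List ℕ) := by
    intro X hX Y hY hne
    rw [toSet_inter, card_toSet]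
    have h := oct_inter hX hY hne
    have hlt : enc gB X &&& enc gB Y < 2 ^ 24 :=
      lt_of_le_of_lt Nat.and_le_left (octL_spec hX).2.1
    rw [pc_more hlt 9]
    exact h
  have hc : ∀ X ∈ octL, (toSet 33 (enc gB X)).card = 8 := by
    intro X hX
    rw [card_toSet, pc_more (octL_spec hX).2.1 9]
    exact (octL_spec hX).2.2
  constructor
  · refine ⟨?_, ?_⟩
    · intro X hX
      simp only [famOf, listO, List.mem_toFinset, List.mem_map] at hX
      obtain ⟨a, ⟨m, hm, rfl⟩, rfl⟩ := hX
      exact hc m hm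
    · intro X hX Y hY hne
      simp only [famOf, listO, List.mem_toFinset, List.mem_map] at hX hY
      obtain ⟨a, ⟨m, hm, rfl⟩, rfl⟩ := hX
      obtain ⟨b, ⟨m', hm', rfl⟩, rfl⟩ := hY
      have h := hT m hm m' hm' (fun h => hne (congrArg (fun m => toSet 33 (enc gB m)) h))
      generalize (toSet 33 (enc gB m) ∩ toSet 33 (enc gB m')).card = c at h ⊢
      simp only [List.mem_cons, List.not_mem_nil, or_false] at h ⊢
      rcases h with h | h | h
      · exact Or.inl h
      · exact Or.inr (Or.inr (Or.inl h))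
      · exact Or.inr (Or.inr (Or.inr h))
  · unfold famOf
    rw [List.toFinset_card_of_nodup, List.length_map, listO_len]
    have hnd : octL.Nodup := List.Nodup.filter _ List.nodup_range
    rw [listO, List.map_map]
    refine (List.nodup_map_iff_inj_on hnd).2 ?_
    intro X hX Y hY he
    by_contra hne
    have h := hT X hX Y hY hne
    simp only [Function.comp_apply] at he
    rw [he, Finset.inter_self, hc Y hY] at h
    simp at h

end MP44257e
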