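import Pool.Agent.H.MP_44257e_co.Base

/-!
# MP_44257e_co: counting points of subspaces over a finite field
-/

namespace MP44257e

open Module

/-- `1 + q + ... + q^(i-1)` -/
def gn (q i : ℕ) : ℕ := ∑ j ∈ Finset.range i, q ^ j

theorem gn_zero (q : ℕ) : gn q 0 = 0 := rfl

theorem gn_succ (q i : ℕ) : gn q (i + 1) = gn q i + q ^ i := Finset.sum_range_succ _ _

theorem gn_lt {q : ℕ} (hq : 0 < q) {i j : ℕ} (h : i < j) : gn q i < gn q j := by
  induction h with
  | refl => rw [gn_succ]; have := pow_pos hq i; omega
  | step _ ih => rw [gn_succ]; exact lt_of_lt_of_le ih (Nat.le_add_right _ _)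

theorem gn_le {q : ℕ} (hq : 0 < q) {i j : ℕ} (h : i ≤ j) : gn q i ≤ gn q j := by
  rcases h.lt_or_eq with h | h
  · exact (gn_lt hq h).le
  · rw [h]

section

variable {F : Type*} [Field F] [Fintype F] {n : ℕ}

noncomputable instance instPF {V : Type*} [AddCommGroup V] [Module F V] [Finite V] :
    Fintype (Projectivization F V) := Fintype.ofFinite _

open Classical in
/-- the projective points in a subspace -/
noncomputable def PP (U : Submodule F (Fin n → F)) : Finset (Projectivization F (Fin n → F)) :=
  Finset.univ.filter fun p => p.rep ∈ U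

theorem mem_PP {U : Submodule F (Fin n → F)} {p : Projectivization F (Fin n → F)} :
    p ∈ PP U ↔ p.rep ∈ U := by simp [PP]

open Classical in
theorem PP_inter (U U' : Submodule F (Fin n → F)) : PP U ∩ PP U' = PP (U ⊓ U') := by
  ext p
  simp [mem_PP]

theorem mk_rep_mem {U : Submodule F (Fin n → F)} (v : Fin n → F) (hv : v ≠ 0) :
    (Projectivization.mk F v hv).rep ∈ U ↔ v ∈ U := by
  obtain ⟨a, ha⟩ := Projectivization.exists_smul_eq_mk_rep F v hv
  rw [← ha]
  exact U.smul_mem_iff_of_isUnit a.isUnit

theorem card_PP (U : Submodule F (Fin n → F)) : (PP U).card = gn (Fintype.card F) (finrank F U) := by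
  classical
  have h1 : PP U = Finset.univ.image
      (Projectivization.map U.subtype U.injective_subtype :
        Projectivization F U → Projectivization F (Fin n → F)) := by
    ext p
    rw [mem_PP, Finset.mem_image]
    constructor
    · intro h
      refine ⟨Projectivization.mk F ⟨p.rep, h⟩ (fun h' => p.rep_nonzero (congrArg Subtype.val h')),
        Finset.mem_univ _, ?_⟩
      rw [Projectivization.map_mk]
      exact Projectivization.mk_rep p
    · rintro ⟨p', -, rfl⟩
      induction p' using Projectivization.ind with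
      | h v hv =>
        rw [Projectivization.map_mk, mk_rep_mem]
        exact v.2
  rw [h1, Finset.card_image_of_injective _ (Projectivization.map_injective _ _), Finset.card_univ,
    ← Nat.card_eq_fintype_card, Projectivization.card_of_finrank F U rfl, Nat.card_eq_fintype_card]
  rfl

end

section

variable {F : Type*} [Field F] [Fintype F] {n : ℕ}

/-- the trace of a subspace of `W × F` on `W` -/
def tr (Z : Submodule F ((Fin n → F) × F)) : Submodule F (Fin n → F) :=
  Z.comap (LinearMap.inl F (Fin n → F) F)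

theorem mem_tr {Z : Submodule F ((Fin n → F) × F)} {w : Fin n → F} : w ∈ tr Z ↔ (w, (0 : F)) ∈ Z :=
  Iff.rfl

theorem tr_inf (Z Z' : Submodule F ((Fin n → F) × F)) : tr (Z ⊓ Z') = tr Z ⊓ tr Z' := rfl

open Classical in
/-- the affine part of a subspace of `W × F` -/
noncomputable def aff (Z : Submodule F ((Fin n → F) × F)) : Finset (Fin n → F) :=
  Finset.univ.filter fun w => (w, (1 : F)) ∈ Z

theorem mem_aff {Z : Submodule F ((Fin n → F) × F)} {w : Fin n → F} :
    w ∈ aff Z ↔ (w, (1 : F)) ∈ Z := by simp [aff]

open Classical in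
theorem aff_inter (Z Z' : Submodule F ((Fin n → F) × F)) : aff Z ∩ aff Z' = aff (Z ⊓ Z') := by
  ext w
  simp [mem_aff]

theorem ker_snd (Z : Submodule F ((Fin n → F) × F)) :
    finrank F (LinearMap.ker ((LinearMap.snd F (Fin n → F) F).comp Z.subtype)) =
      finrank F (tr Z) := by
  refine LinearEquiv.finrank_eq (LinearEquiv.symm (LinearEquiv.ofBijective
    (LinearMap.codRestrict _ (LinearMap.codRestrict Z ((LinearMap.inl F (Fin n → F) F).comp
      (tr Z).subtype) (fun w => w.2)) (fun w => ?_)) ⟨?_, ?_⟩))
  · rw [LinearMap.mem_ker]; rfl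
  · intro a b h
    have h1 := congrArg (fun z : LinearMap.ker ((LinearMap.snd F (Fin n → F) F).comp Z.subtype) =>
      ((z : Z) : (Fin n → F) × F).1) h
    exact Subtype.ext h1
  · rintro ⟨⟨⟨w, c⟩, hz⟩, hk⟩
    have hc : c = 0 := hk
    subst hc
    exact ⟨⟨w, hz⟩, rfl⟩

theorem finrank_aff (Z : Submodule F ((Fin n → F) × F)) :
    (aff Z = ∅ ∧ finrank F Z = finrank F (tr Z)) ∨
    (aff Z ≠ ∅ ∧ finrank F Z = finrank F (tr Z) + 1 ∧
      (aff Z).card = Fintype.card F ^ finrank F (tr Z)) := by
  classical
  set f := (LinearMap.snd F (Fin n → F) F).comp Z.subtype with hf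
  have hrk := LinearMap.finrank_range_add_finrank_ker f
  rw [hf, ker_snd] at hrk
  rw [← hf] at hrk
  by_cases h : aff Z = ∅
  · left
    refine ⟨h, ?_⟩
    have h0 : LinearMap.range f = ⊥ := by
      rw [LinearMap.range_eq_bot]
      ext ⟨⟨w, c⟩, hz⟩
      change c = 0
      by_contra hc
      have h1 : (c⁻¹ • w, (1 : F)) ∈ Z := by
        have := Z.smul_mem c⁻¹ hz
        rwa [Prod.smul_mk, smul_eq_mul, inv_mul_cancel₀ hc] at this
      have h2 := mem_aff.2 h1
      rw [h] at h2
      exact absurd h2 (Finset.notMem_empty _)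
    rw [h0, finrank_bot, zero_add] at hrk
    exact hrk.symm
  · right
    obtain ⟨w0, hw0⟩ := Finset.nonempty_iff_ne_empty.2 h
    have hw0' := mem_aff.1 hw0
    have h0 : LinearMap.range f = ⊤ := by
      rw [LinearMap.range_eq_top]
      intro c
      exact ⟨⟨c • (w0, (1 : F)), Z.smul_mem c hw0'⟩, by
        change (c • (w0, (1 : F))).2 = c
        rw [Prod.smul_snd, smul_eq_mul, mul_one]⟩
    rw [h0, finrank_top, finrank_self] at hrk
    refine ⟨h, by omega, ?_⟩
    have h3 : aff Z = (Finset.univ.filter fun w => w ∈ tr Z).image (fun w => w + w0) := by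
      ext w
      rw [mem_aff, Finset.mem_image]
      constructor
      · intro hw
        refine ⟨w - w0, ?_, by abel⟩
        rw [Finset.mem_filter]
        refine ⟨Finset.mem_univ _, ?_⟩
        have := Z.sub_mem hw hw0'
        rwa [Prod.mk_sub_mk, sub_self] at this
      · rintro ⟨w', hw', rfl⟩
        have h4 := (Finset.mem_filter.1 hw').2
        have := Z.add_mem (mem_tr.1 h4) hw0'
        rwa [Prod.mk_add_mk, zero_add] at this
    rw [h3, Finset.card_image_of_injective _ (add_left_injective w0), ← Fintype.card_subtype]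
    exact Module.card_eq_pow_finrank (K := F) (V := tr Z)

end

end MP44257e
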