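import Pool.Agent.H.MP_44257e_co.PG1

/-!
# MP_44257e_co: the polarity and the distorted blocks
-/

namespace MP44257e

open Module

variable {F : Type*} [Field F] {n : ℕ}

/-- the dot product -/
noncomputable def dotB (F : Type*) [Field F] (n : ℕ) : LinearMap.BilinForm F (Fin n → F) :=
  Matrix.toBilin' (1 : Matrix (Fin n) (Fin n) F)

theorem dotB_apply (x y : Fin n → F) : dotB F n x y = ∑ i, x i * y i := by
  unfold dotB
  rw [Matrix.toBilin'_apply', Matrix.one_mulVec]
  rfl

theorem dotB_nondeg : (dotB F n).Nondegenerate := by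
  unfold dotB
  exact LinearMap.BilinForm.nondegenerate_toBilin'_of_det_ne_zero' _ (by simp)

/-- the orthogonal complement -/
noncomputable def perp (U : Submodule F (Fin n → F)) : Submodule F (Fin n → F) :=
  (dotB F n).orthogonal U

theorem mem_perp {U : Submodule F (Fin n → F)} {w : Fin n → F} :
    w ∈ perp U ↔ ∀ u ∈ U, ∑ i, u i * w i = 0 := by
  unfold perp
  rw [LinearMap.BilinForm.mem_orthogonal_iff]
  refine forall₂_congr fun u _ => ?_
  rw [← dotB_apply]

theorem finrank_perp (U : Submodule F (Fin n → F)) : finrank F (perp U) = n - finrank F U := by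
  unfold perp
  rw [LinearMap.BilinForm.finrank_orthogonal dotB_nondeg, finrank_fin_fun]

theorem perp_inf (U U' : Submodule F (Fin n → F)) : perp U ⊓ perp U' = perp (U ⊔ U') := by
  ext w
  rw [Submodule.mem_inf, mem_perp, mem_perp, mem_perp]
  constructor
  · rintro ⟨h1, h2⟩ u hu
    obtain ⟨a, ha, b, hb, rfl⟩ := Submodule.mem_sup.1 hu
    have h3 := h1 a ha
    have h4 := h2 b hb
    simp only [Pi.add_apply, add_mul, Finset.sum_add_distrib, h3, h4, add_zero]
  · intro h
    exact ⟨fun u hu => h u (Submodule.mem_sup_left hu), fun u hu => h u (Submodule.mem_sup_right hu)⟩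

theorem finrank_perp_inf {l : ℕ} {U U' : Submodule F (Fin (2 * l) → F)} (hU : finrank F U = l)
    (hU' : finrank F U' = l) :
    finrank F (perp U ⊓ perp U' : Submodule F (Fin (2 * l) → F)) =
      finrank F (U ⊓ U' : Submodule F (Fin (2 * l) → F)) := by
  rw [perp_inf, finrank_perp]
  have h := Submodule.finrank_sup_add_finrank_inf_eq U U'
  have h2 : finrank F (U ⊓ U' : Submodule F (Fin (2 * l) → F)) ≤ l := by
    exact (Submodule.finrank_mono inf_le_left).trans hU.le
  omega

variable [Fintype F]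

open Classical in
/-- the part at infinity of a block -/
noncomputable def tau {l : ℕ} (X : Submodule F ((Fin (2 * l) → F) × F)) :
    Submodule F (Fin (2 * l) → F) := if aff X = ∅ then tr X else perp (tr X)

open Classical in
/-- the block of a subspace -/
noncomputable def block {l : ℕ} (X : Submodule F ((Fin (2 * l) → F) × F)) :
    Finset ((Fin (2 * l) → F) ⊕ Projectivization F (Fin (2 * l) → F)) :=
  (aff X).disjSum (PP (tau X))

theorem block_card {l : ℕ} {X : Submodule F ((Fin (2 * l) → F) × F)} (hX : finrank F X = l + 1) :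
    (block X).card = gn (Fintype.card F) (l + 1) := by
  unfold block
  rw [Finset.card_disjSum, card_PP]
  rcases finrank_aff X with ⟨h1, h2⟩ | ⟨h1, h2, h3⟩
  · rw [tau, if_pos h1, h1, Finset.card_empty, zero_add, ← h2, hX]
  · have h4 : finrank F (tr X) = l := by omega
    rw [tau, if_neg h1, finrank_perp, h3, h4, show 2 * l - l = l by omega, gn_succ, add_comm]

open Classical in
theorem disjSum_inter {α β : Type*} [DecidableEq α] [DecidableEq β] (a c : Finset α) (b d : Finset β) :
    a.disjSum b ∩ c.disjSum d = (a ∩ c).disjSum (b ∩ d) := by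
  ext x
  rcases x with x | x <;> simp

open Classical in
theorem block_inter_card {l : ℕ} (X Y : Submodule F ((Fin (2 * l) → F) × F)) :
    (block X ∩ block Y).card = (aff (X ⊓ Y)).card +
      gn (Fintype.card F) (finrank F (tau X ⊓ tau Y : Submodule F (Fin (2 * l) → F))) := by
  unfold block
  rw [disjSum_inter, Finset.card_disjSum, ← card_PP, ← PP_inter, ← aff_inter]

theorem eq_of_tr_eq {X Y : Submodule F ((Fin n → F) × F)} (hX : aff X = ∅) (hY : aff Y = ∅)
    (h : tr X = tr Y) : X = Y := by
  have key : ∀ Z : Submodule F ((Fin n → F) × F), aff Z = ∅ →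
      Z = (tr Z).map (LinearMap.inl F (Fin n → F) F) := by
    intro Z hZ
    have h1 : (tr Z).map (LinearMap.inl F (Fin n → F) F) ≤ Z := by
      rintro _ ⟨w, hw, rfl⟩
      exact hw
    rcases finrank_aff Z with ⟨-, h2⟩ | ⟨h2, -⟩
    · refine (Submodule.eq_of_le_of_finrank_eq h1 ?_).symm
      rw [h2]
      exact (LinearEquiv.finrank_eq (Submodule.equivMapOfInjective (LinearMap.inl F (Fin n → F) F)
        LinearMap.inl_injective (tr Z))).symm
    · exact absurd hZ h2
  rw [key X hX, key Y hY, h]

open Classical in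
theorem block_inter {l : ℕ} {X Y : Submodule F ((Fin (2 * l) → F) × F)}
    (hX : finrank F X = l + 1) (hY : finrank F Y = l + 1) (hne : X ≠ Y) :
    ∃ j, j ≤ l ∧ (block X ∩ block Y).card = gn (Fintype.card F) j := by
  rw [block_inter_card]
  have hXY : finrank F (X ⊓ Y : Submodule F ((Fin (2 * l) → F) × F)) ≤ l := by
    by_contra hcon
    have h1 : finrank F (X ⊓ Y : Submodule F ((Fin (2 * l) → F) × F)) ≤ l + 1 := by
      rw [← hX]; exact Submodule.finrank_mono inf_le_left
    have h2 : finrank F (X ⊓ Y : Submodule F ((Fin (2 * l) → F) × F)) = l + 1 := by omega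
    have h3 : X ⊓ Y = X := Submodule.eq_of_le_of_finrank_eq inf_le_left (by rw [h2, hX])
    have h4 : X ⊓ Y = Y := Submodule.eq_of_le_of_finrank_eq inf_le_right (by rw [h2, hY])
    exact hne (by rw [← h3, h4])
  have hsub1 : aff X = ∅ → aff (X ⊓ Y) = ∅ := by
    intro h; rw [← aff_inter, h, Finset.empty_inter]
  have hsub2 : aff Y = ∅ → aff (X ⊓ Y) = ∅ := by
    intro h; rw [← aff_inter, h, Finset.inter_empty]
  rcases finrank_aff X with ⟨h1, h2⟩ | ⟨h1, h2, h3⟩ <;>
    rcases finrank_aff Y with ⟨g1, g2⟩ | ⟨g1, g2, g3⟩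
  · rw [hsub1 h1, Finset.card_empty, zero_add]
    refine ⟨_, ?_, rfl⟩
    rw [tau, tau, if_pos h1, if_pos g1]
    by_contra hcon
    have k1 : finrank F (tr X ⊓ tr Y : Submodule F (Fin (2 * l) → F)) ≤ l + 1 := by
      rw [← hX, h2]; exact Submodule.finrank_mono inf_le_left
    have k2 : finrank F (tr X ⊓ tr Y : Submodule F (Fin (2 * l) → F)) = l + 1 := by omega
    have k3 : tr X ⊓ tr Y = tr X :=
      Submodule.eq_of_le_of_finrank_eq inf_le_left (by rw [k2, ← h2, hX])
    have k4 : tr X ⊓ tr Y = tr Y :=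
      Submodule.eq_of_le_of_finrank_eq inf_le_right (by rw [k2, ← g2, hY])
    exact hne (eq_of_tr_eq h1 g1 (by rw [← k3, k4]))
  · rw [hsub1 h1, Finset.card_empty, zero_add]
    refine ⟨_, ?_, rfl⟩
    refine (Submodule.finrank_mono inf_le_right).trans ?_
    rw [tau, if_neg g1, finrank_perp]
    omega
  · rw [hsub2 g1, Finset.card_empty, zero_add]
    refine ⟨_, ?_, rfl⟩
    refine (Submodule.finrank_mono inf_le_left).trans ?_
    rw [tau, if_neg h1, finrank_perp]
    omega
  · have hU : finrank F (tr X) = l := by omega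
    have hU' : finrank F (tr Y) = l := by omega
    have e1 : finrank F (tau X ⊓ tau Y : Submodule F (Fin (2 * l) → F)) =
        finrank F (tr X ⊓ tr Y : Submodule F (Fin (2 * l) → F)) := by
      rw [tau, tau, if_neg h1, if_neg g1, finrank_perp_inf hU hU']
    rw [e1]
    rcases finrank_aff (X ⊓ Y) with ⟨k1, k2⟩ | ⟨k1, k2, k3⟩
    · rw [k1, Finset.card_empty, zero_add]
      refine ⟨_, ?_, rfl⟩
      rw [← tr_inf, ← k2]
      exact hXY
    · refine ⟨finrank F (tr X ⊓ tr Y : Submodule F (Fin (2 * l) → F)) + 1, ?_, ?_⟩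
      · rw [← tr_inf, ← k2]
        exact hXY
      · rw [k3, tr_inf, gn_succ, add_comm]

end MP44257e
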