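import Pool.Agent.H.MP_44257e_co.PG2

/-!
# MP_44257e_co: counting subspaces
-/

namespace MP44257e

open Module

section

variable {F V : Type*} [Field F] [Fintype F] [AddCommGroup V] [Module F V] [Finite V]

/-- the fibre of the span map -/
noncomputable def fibEquiv {m : ℕ} (X : {X : Submodule F V // finrank F X = m}) :
    {s : {s : Fin m → V // LinearIndependent F s} //
      (⟨Submodule.span F (Set.range s.1), by
        rw [finrank_span_eq_card s.2, Fintype.card_fin]⟩ : {X : Submodule F V // finrank F X = m}) = X} ≃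
    {t : Fin m → X.1 // LinearIndependent F t} where
  toFun s := ⟨fun i => ⟨s.1.1 i, by
      have h := congrArg Subtype.val s.2
      simp only at h
      rw [← h]
      exact Submodule.subset_span ⟨i, rfl⟩⟩, by
    refine LinearIndependent.of_comp X.1.subtype ?_
    exact s.1.2⟩
  invFun t := ⟨⟨fun i => (t.1 i : V), t.2.map' X.1.subtype (Submodule.ker_subtype _)⟩, by
    apply Subtype.ext
    simp only
    refine Submodule.eq_of_le_of_finrank_eq ?_ ?_
    · rw [Submodule.span_le]
      rintro _ ⟨i, rfl⟩
      exact (t.1 i).2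
    · have hli : LinearIndependent F (fun i => (t.1 i : V)) :=
        t.2.map' X.1.subtype (Submodule.ker_subtype _)
      rw [finrank_span_eq_card hli, Fintype.card_fin, X.2]⟩
  left_inv s := by
    apply Subtype.ext
    apply Subtype.ext
    rfl
  right_inv t := by
    apply Subtype.ext
    rfl

theorem card_subspaces {m N : ℕ} (hV : finrank F V = N) (hm : m ≤ N) :
    Nat.card {X : Submodule F V // finrank F X = m} *
      ∏ i : Fin m, (Fintype.card F ^ m - Fintype.card F ^ (i : ℕ)) =
    ∏ i : Fin m, (Fintype.card F ^ N - Fintype.card F ^ (i : ℕ)) := by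
  classical
  haveI : Fintype V := Fintype.ofFinite V
  haveI : Finite (Submodule F V) := inferInstance
  haveI : Fintype {X : Submodule F V // finrank F X = m} := Fintype.ofFinite _
  have h1 := card_linearIndependent (K := F) (V := V) (k := m) (by rw [hV]; exact hm)
  rw [hV] at h1
  rw [← h1, Nat.card_congr (Equiv.sigmaFiberEquiv fun s : {s : Fin m → V // LinearIndependent F s} =>
      (⟨Submodule.span F (Set.range s.1), by
        rw [finrank_span_eq_card s.2, Fintype.card_fin]⟩ :
          {X : Submodule F V // finrank F X = m})).symm, Nat.card_sigma]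
  have h2 : ∀ X : {X : Submodule F V // finrank F X = m},
      Nat.card {s : {s : Fin m → V // LinearIndependent F s} //
        (⟨Submodule.span F (Set.range s.1), by
          rw [finrank_span_eq_card s.2, Fintype.card_fin]⟩ :
            {X : Submodule F V // finrank F X = m}) = X} =
      ∏ i : Fin m, (Fintype.card F ^ m - Fintype.card F ^ (i : ℕ)) := by
    intro X
    rw [Nat.card_congr (fibEquiv X)]
    have h3 := card_linearIndependent (K := F) (V := X.1) (k := m) (by rw [X.2])
    rw [X.2] at h3
    exact h3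
  rw [Finset.sum_congr rfl fun X _ => h2 X, Finset.sum_const, smul_eq_mul, Finset.card_univ,
    Nat.card_eq_fintype_card]

end

theorem gn_mul {q : ℕ} (hq : 2 ≤ q) (i : ℕ) : ((gn q i : ℕ) : ℚ) * ((q : ℚ) - 1) = (q : ℚ) ^ i - 1 := by
  unfold gn
  push_cast
  exact geom_sum_mul _ _

/-- The increasing list of the sizes of the proper subspaces. -/
def projT (q m : ℕ) : List ℕ := (List.range m).map (gn q)

theorem list_prod_range (f : ℕ → ℚ) (m : ℕ) : ((List.range m).map f).prod = ∏ i : Fin m, f i := by
  rw [Fin.prod_univ_eq_prod_range (fun i => f i) m]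
  induction m with
  | zero => simp
  | succ m ih => rw [List.range_succ, List.map_append, List.prod_append, ih,
      Finset.prod_range_succ]; simp

theorem bound_projT {q : ℕ} (hq : 2 ≤ q) (m N : ℕ) :
    bound (projT q m) (gn q m) (gn q N) * ∏ i : Fin m, ((q : ℚ) ^ m - (q : ℚ) ^ (i : ℕ)) =
      ∏ i : Fin m, ((q : ℚ) ^ N - (q : ℚ) ^ (i : ℕ)) := by
  have hq1 : (q : ℚ) - 1 ≠ 0 := by
    have : (2 : ℚ) ≤ q := by exact_mod_cast hq
    linarith
  have hq0 : (1 : ℚ) < q := by exact_mod_cast hq
  unfold bound projT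
  rw [List.map_map, list_prod_range, ← Finset.prod_mul_distrib]
  refine Finset.prod_congr rfl fun i _ => ?_
  simp only [Function.comp]
  have h1 : ∀ j : ℕ, ((gn q j : ℕ) : ℚ) - (gn q i : ℕ) =
      ((q : ℚ) ^ j - (q : ℚ) ^ (i : ℕ)) / ((q : ℚ) - 1) := by
    intro j
    rw [eq_div_iff hq1, sub_mul, gn_mul hq, gn_mul hq]
    ring
  rw [h1 N, h1 m]
  have h2 : (q : ℚ) ^ m - (q : ℚ) ^ (i : ℕ) ≠ 0 := by
    have : (q : ℚ) ^ (i : ℕ) < (q : ℚ) ^ m := pow_lt_pow_right₀ hq0 i.2
    linarith
  field_simp

end MP44257e
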