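import Pool.Agent.H.MP_44257e_co.PG3

/-!
# MP_44257e_co: coordinate subspaces and three special blocks
-/

namespace MP44257e

open Module

variable {F : Type*} [Field F] {n : ℕ}

/-- The vectors that vanish outside `S`. -/
def ES (F : Type*) [Field F] {n : ℕ} (S : Finset (Fin n)) : Submodule F (Fin n → F) :=
  ⨅ i ∈ ((S : Set (Fin n))ᶜ : Set (Fin n)), LinearMap.ker (LinearMap.proj (R := F) (φ := fun _ => F) i)

theorem mem_ES {S : Finset (Fin n)} {w : Fin n → F} : w ∈ ES F S ↔ ∀ i, i ∉ S → w i = 0 := by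
  unfold ES
  simp only [Submodule.mem_iInf, Set.mem_compl_iff, Finset.mem_coe, LinearMap.mem_ker,
    LinearMap.proj_apply]

theorem finrank_ES (S : Finset (Fin n)) : finrank F (ES F S) = S.card := by
  classical
  have h := (LinearMap.iInfKerProjEquiv F (fun _ : Fin n => F) (I := (S : Set (Fin n)))
    (J := (S : Set (Fin n))ᶜ) disjoint_compl_right (by simp)).finrank_eq
  unfold ES
  rw [h, finrank_fintype_fun_eq_card]
  simp

theorem ES_inf (S S' : Finset (Fin n)) : ES F S ⊓ ES F S' = ES F (S ∩ S') := by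
  ext w
  rw [Submodule.mem_inf, mem_ES, mem_ES, mem_ES]
  constructor
  · rintro ⟨h1, h2⟩ i hi
    by_cases h : i ∈ S
    · exact h2 i fun h' => hi (Finset.mem_inter.2 ⟨h, h'⟩)
    · exact h1 i h
  · intro h
    exact ⟨fun i hi => h i fun h' => hi (Finset.mem_inter.1 h').1,
      fun i hi => h i fun h' => hi (Finset.mem_inter.1 h').2⟩

theorem perp_ES (S : Finset (Fin n)) : perp (ES F S) = ES F Sᶜ := by
  classical
  ext w
  rw [mem_perp, mem_ES]
  constructor
  · intro h i hi
    have hi' : i ∈ S := by simpa using hi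
    have h1 := h (Pi.single i 1) (by
      rw [mem_ES]
      intro j hj
      have : j ≠ i := fun h => hj (h ▸ hi')
      simp [this])
    simpa [Pi.single_apply] using h1
  · intro h u hu
    rw [mem_ES] at hu
    refine Finset.sum_eq_zero fun i _ => ?_
    by_cases hi : i ∈ S
    · rw [h i (by simpa using hi), mul_zero]
    · rw [hu i hi, zero_mul]

/-- The subspace `E(S) × F`. -/
def XS (F : Type*) [Field F] {n : ℕ} (S : Finset (Fin n)) : Submodule F ((Fin n → F) × F) :=
  (ES F S).prod ⊤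

theorem tr_XS [Fintype F] (S : Finset (Fin n)) : tr (XS F S) = ES F S := by
  ext w
  rw [mem_tr, XS, Submodule.mem_prod]
  simp

theorem XS_inf (S S' : Finset (Fin n)) : XS F S ⊓ XS F S' = XS F (S ∩ S') := by
  unfold XS
  rw [← ES_inf]
  ext ⟨w, c⟩
  simp [Submodule.mem_inf, Submodule.mem_prod]

theorem aff_XS_ne [Fintype F] (S : Finset (Fin n)) : aff (XS F S) ≠ ∅ := by
  apply Finset.nonempty_iff_ne_empty.1
  refine ⟨0, mem_aff.2 ?_⟩
  rw [XS, Submodule.mem_prod]
  exact ⟨Submodule.zero_mem _, Submodule.mem_top⟩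

theorem finrank_XS [Fintype F] (S : Finset (Fin n)) : finrank F (XS F S) = S.card + 1 := by
  rcases finrank_aff (XS F S) with ⟨h, -⟩ | ⟨-, h, -⟩
  · exact absurd h (aff_XS_ne S)
  · rw [h, tr_XS, finrank_ES]

theorem card_aff_XS [Fintype F] (S : Finset (Fin n)) :
    (aff (XS F S)).card = Fintype.card F ^ S.card := by
  rcases finrank_aff (XS F S) with ⟨h, -⟩ | ⟨-, -, h⟩
  · exact absurd h (aff_XS_ne S)
  · rw [h, tr_XS, finrank_ES]

open Classical in
theorem block_XS_inter [Fintype F] {l : ℕ} (S₀ S₁ S₂ : Finset (Fin (2 * l))) :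
    (block (XS F S₀) ∩ block (XS F S₁) ∩ block (XS F S₂)).card =
      Fintype.card F ^ (S₀ ∩ S₁ ∩ S₂).card + gn (Fintype.card F) (S₀ᶜ ∩ S₁ᶜ ∩ S₂ᶜ).card := by
  unfold block
  rw [disjSum_inter, disjSum_inter, Finset.card_disjSum, aff_inter, aff_inter, XS_inf, XS_inf,
    card_aff_XS, tau, tau, tau, if_neg (aff_XS_ne _), if_neg (aff_XS_ne _), if_neg (aff_XS_ne _),
    tr_XS, tr_XS, tr_XS, perp_ES, perp_ES, perp_ES, PP_inter, PP_inter, ES_inf, ES_inf, card_PP,
    finrank_ES]

theorem card_fin_filter (n : ℕ) (P : ℕ → Prop) [DecidablePred P] :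
    ((Finset.univ : Finset (Fin n)).filter fun j : Fin n => P (j : ℕ)).card =
      ((Finset.range n).filter P).card := by
  rw [← Finset.card_map Fin.valEmbedding]
  congr 1
  ext x
  simp only [Finset.mem_map, Finset.mem_filter, Finset.mem_univ, true_and, Fin.valEmbedding_apply,
    Finset.mem_range]
  constructor
  · rintro ⟨j, hj, rfl⟩
    exact ⟨j.2, hj⟩
  · rintro ⟨h1, h2⟩
    exact ⟨⟨x, h1⟩, h2, rfl⟩

/-- The three coordinate sets. -/
def Sa (l a : ℕ) : Finset (Fin (2 * l)) :=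
  Finset.univ.filter fun j => (j : ℕ) < l - 1 ∨ (j : ℕ) = l - 1 + a

theorem card_Sa {l a : ℕ} (hl : 2 ≤ l) (ha : a ≤ 2) : (Sa l a).card = l := by
  unfold Sa
  rw [card_fin_filter (2 * l) (fun j => j < l - 1 ∨ j = l - 1 + a)]
  have h : (Finset.range (2 * l)).filter (fun j => j < l - 1 ∨ j = l - 1 + a) =
      insert (l - 1 + a) (Finset.range (l - 1)) := by
    ext x
    simp only [Finset.mem_filter, Finset.mem_range, Finset.mem_insert]
    omega
  rw [h, Finset.card_insert_of_notMem (by simp), Finset.card_range]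
  omega

theorem card_Sa_inter {l : ℕ} (hl : 2 ≤ l) : (Sa l 0 ∩ Sa l 1 ∩ Sa l 2).card = l - 1 := by
  have h1 : Sa l 0 ∩ Sa l 1 ∩ Sa l 2 = Finset.univ.filter fun j : Fin (2 * l) => (j : ℕ) < l - 1 := by
    ext x
    simp only [Sa, Finset.mem_inter, Finset.mem_filter, Finset.mem_univ, true_and]
    omega
  rw [h1, card_fin_filter (2 * l) (fun j => j < l - 1)]
  have h : (Finset.range (2 * l)).filter (fun j => j < l - 1) = Finset.range (l - 1) := by
    ext x
    simp only [Finset.mem_filter, Finset.mem_range]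
    omega
  rw [h, Finset.card_range]

theorem card_Sa_compl {l : ℕ} (hl : 2 ≤ l) : ((Sa l 0)ᶜ ∩ (Sa l 1)ᶜ ∩ (Sa l 2)ᶜ).card = l - 2 := by
  have h1 : (Sa l 0)ᶜ ∩ (Sa l 1)ᶜ ∩ (Sa l 2)ᶜ =
      Finset.univ.filter fun j : Fin (2 * l) => l + 2 ≤ (j : ℕ) := by
    ext x
    simp only [Sa, Finset.mem_inter, Finset.mem_compl, Finset.mem_filter, Finset.mem_univ, true_and]
    omega
  rw [h1, card_fin_filter (2 * l) (fun j => l + 2 ≤ j)]
  have h : (Finset.range (2 * l)).filter (fun j => l + 2 ≤ j) = Finset.Ico (l + 2) (2 * l) := by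
    ext x
    simp only [Finset.mem_filter, Finset.mem_range, Finset.mem_Ico]
    omega
  rw [h, Nat.card_Ico]
  omega

open Classical in
/-- The intersection of three blocks has a size that no flat can have. -/
theorem three_blocks [Fintype F] {l : ℕ} (hl : 2 ≤ l) :
    ∃ X₀ X₁ X₂ : Submodule F ((Fin (2 * l) → F) × F),
      finrank F X₀ = l + 1 ∧ finrank F X₁ = l + 1 ∧ finrank F X₂ = l + 1 ∧
      ∀ j, (block X₀ ∩ block X₁ ∩ block X₂).card ≠ gn (Fintype.card F) j := by
  have hq : 2 ≤ Fintype.card F := Fintype.one_lt_card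
  refine ⟨XS F (Sa l 0), XS F (Sa l 1), XS F (Sa l 2), ?_, ?_, ?_, ?_⟩
  · rw [finrank_XS, card_Sa hl (by omega)]
  · rw [finrank_XS, card_Sa hl (by omega)]
  · rw [finrank_XS, card_Sa hl (by omega)]
  · intro j
    rw [block_XS_inter, card_Sa_inter hl, card_Sa_compl hl]
    obtain ⟨k, rfl⟩ : ∃ k, l = k + 2 := ⟨l - 2, by omega⟩
    simp only [Nat.add_sub_cancel, show k + 2 - 1 = k + 1 by omega]
    intro h
    have h1 : gn (Fintype.card F) (k + 1) = gn (Fintype.card F) k + Fintype.card F ^ k := gn_succ _ _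
    have h2 : gn (Fintype.card F) (k + 2) =
      gn (Fintype.card F) k + Fintype.card F ^ k + Fintype.card F ^ (k + 1) := by
      rw [gn_succ, gn_succ]
    have h3 : 0 < Fintype.card F ^ k := pow_pos (by omega) k
    have h4 : Fintype.card F ^ k < Fintype.card F ^ (k + 1) := Nat.pow_lt_pow_right (by omega) (by omega)
    rcases Nat.lt_or_ge j (k + 2) with h5 | h5
    · have h6 := gn_le (q := Fintype.card F) (by omega) (show j ≤ k + 1 by omega)
      omega
    · have h6 := gn_le (q := Fintype.card F) (by omega) h5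
      omega

end MP44257e
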