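import Pool.Agent.H.MP_44257e_co.PG4

/-!
# MP_44257e_co: the distorted family violates (ii)
-/

namespace MP44257e

open Module

variable {F : Type*} [Field F] [Fintype F]

theorem card_points (l : ℕ) :
    Fintype.card ((Fin (2 * l) → F) ⊕ Projectivization F (Fin (2 * l) → F)) =
      gn (Fintype.card F) (2 * l + 1) := by
  have h : Fintype.card (Projectivization F (Fin (2 * l) → F)) = gn (Fintype.card F) (2 * l) := by
    rw [← Nat.card_eq_fintype_card, Projectivization.card_of_finrank F _ (finrank_fin_fun F),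
      Nat.card_eq_fintype_card]
    rfl
  rw [Fintype.card_sum, h, gn_succ, Fintype.card_fun, Fintype.card_fin, add_comm]

/-- an enumeration of the points -/
noncomputable def enum (F : Type*) [Field F] [Fintype F] (l : ℕ) :
    ((Fin (2 * l) → F) ⊕ Projectivization F (Fin (2 * l) → F)) ≃ Fin (gn (Fintype.card F) (2 * l + 1)) :=
  Fintype.equivFinOfCardEq (card_points l)

/-- a block as a subset of `Fin v` -/
noncomputable def blk {l : ℕ} (X : Submodule F ((Fin (2 * l) → F) × F)) :
    Finset (Fin (gn (Fintype.card F) (2 * l + 1))) := (block X).map (enum F l).toEmbedding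

open Classical in
/-- the distorted family -/
noncomputable def famD (F : Type*) [Field F] [Fintype F] (l : ℕ) :
    Finset (Finset (Fin (gn (Fintype.card F) (2 * l + 1)))) :=
  Finset.univ.image fun X : {X : Submodule F ((Fin (2 * l) → F) × F) // finrank F X = l + 1} => blk X.1

theorem mem_famD {l : ℕ} {A : Finset (Fin (gn (Fintype.card F) (2 * l + 1)))} :
    A ∈ famD F l ↔ ∃ X : Submodule F ((Fin (2 * l) → F) × F), finrank F X = l + 1 ∧ blk X = A := by
  simp [famD]

theorem blk_card {l : ℕ} {X : Submodule F ((Fin (2 * l) → F) × F)} (hX : finrank F X = l + 1) :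
    (blk X).card = gn (Fintype.card F) (l + 1) := by
  rw [blk, Finset.card_map, block_card hX]

theorem blk_inter {l : ℕ} {X Y : Submodule F ((Fin (2 * l) → F) × F)}
    (hX : finrank F X = l + 1) (hY : finrank F Y = l + 1) (hne : X ≠ Y) :
    ∃ j, j ≤ l ∧ (blk X ∩ blk Y).card = gn (Fintype.card F) j := by
  classical
  obtain ⟨j, hj, h⟩ := block_inter hX hY hne
  refine ⟨j, hj, ?_⟩
  rw [blk, blk, ← Finset.map_inter, Finset.card_map, ← h]

theorem blk_inj {l : ℕ} {X Y : Submodule F ((Fin (2 * l) → F) × F)}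
    (hX : finrank F X = l + 1) (hY : finrank F Y = l + 1) (h : blk X = blk Y) : X = Y := by
  by_contra hne
  obtain ⟨j, hj, h1⟩ := blk_inter hX hY hne
  rw [← h, Finset.inter_self, blk_card hX] at h1
  have h2 := gn_lt (q := Fintype.card F) Fintype.card_pos (show j < l + 1 by omega)
  omega

theorem isFam_famD (l : ℕ) :
    IsFam (projT (Fintype.card F) (l + 1)) (gn (Fintype.card F) (l + 1)) (famD F l) := by
  refine ⟨?_, ?_⟩
  · intro A hA
    obtain ⟨X, hX, rfl⟩ := mem_famD.1 hA
    exact blk_card hX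
  · intro A hA B hB hne
    obtain ⟨X, hX, rfl⟩ := mem_famD.1 hA
    obtain ⟨Y, hY, rfl⟩ := mem_famD.1 hB
    obtain ⟨j, hj, h⟩ := blk_inter hX hY (fun h => hne (by rw [h]))
    rw [h, projT, List.mem_map]
    exact ⟨j, List.mem_range.2 (by omega), rfl⟩

theorem card_famD (l : ℕ) :
    ((famD F l).card : ℚ) = bound (projT (Fintype.card F) (l + 1)) (gn (Fintype.card F) (l + 1))
      (gn (Fintype.card F) (2 * l + 1)) := by
  classical
  have hq : 2 ≤ Fintype.card F := Fintype.one_lt_card
  have hq0 : (1 : ℚ) < Fintype.card F := by exact_mod_cast hq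
  have h1 : (famD F l).card =
      Nat.card {X : Submodule F ((Fin (2 * l) → F) × F) // finrank F X = l + 1} := by
    unfold famD
    rw [Finset.card_image_of_injective, Finset.card_univ, Nat.card_eq_fintype_card]
    intro X Y h
    exact Subtype.ext (blk_inj X.2 Y.2 h)
  have hV : finrank F ((Fin (2 * l) → F) × F) = 2 * l + 1 := by
    rw [finrank_prod, finrank_fin_fun, finrank_self]
  have h2 := card_subspaces (F := F) (V := (Fin (2 * l) → F) × F) (m := l + 1) hV (by omega)
  rw [← h1] at h2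
  have hcast : ∀ N, l + 1 ≤ N →
      ((∏ i : Fin (l + 1), (Fintype.card F ^ N - Fintype.card F ^ (i : ℕ)) : ℕ) : ℚ) =
        ∏ i : Fin (l + 1), ((Fintype.card F : ℚ) ^ N - (Fintype.card F : ℚ) ^ (i : ℕ)) := by
    intro N hN
    rw [Nat.cast_prod]
    refine Finset.prod_congr rfl fun i _ => ?_
    rw [Nat.cast_sub (Nat.pow_le_pow_right (by omega) (by omega)), Nat.cast_pow, Nat.cast_pow]
  have h3 := congrArg (Nat.cast : ℕ → ℚ) h2
  rw [Nat.cast_mul, hcast _ le_rfl, hcast _ (by omega)] at h3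
  rw [← bound_projT hq (l + 1) (2 * l + 1)] at h3
  refine mul_right_cancel₀ ?_ h3
  refine Finset.prod_ne_zero_iff.2 fun i _ => ?_
  have : (Fintype.card F : ℚ) ^ (i : ℕ) < (Fintype.card F : ℚ) ^ (l + 1) := pow_lt_pow_right₀ hq0 i.2
  linarith

/-- The `α`-sequence consists of numbers `gn q j`. -/
theorem getD_projT (q m N i : ℕ) : ∃ j, (projT q m ++ [gn q m, gn q N]).getD i 0 = gn q j := by
  by_cases h : i < (projT q m ++ [gn q m, gn q N]).length
  · rw [List.getD_eq_getElem _ _ h]
    have h1 := List.getElem_mem h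
    rw [List.mem_append] at h1
    rcases h1 with h1 | h1
    · obtain ⟨j, -, hj⟩ := List.mem_map.1 h1
      exact ⟨j, hj.symm⟩
    · rw [List.mem_cons, List.mem_singleton] at h1
      rcases h1 with h1 | h1
      · exact ⟨m, h1⟩
      · exact ⟨N, h1⟩
  · rw [List.getD_eq_default _ _ (not_lt.1 h)]
    exact ⟨0, rfl⟩

theorem flat_inter {α : Type*} {M : Matroid α} {A B : Set α} (hA : M.IsFlat A) (hB : M.IsFlat B) :
    M.IsFlat (A ∩ B) := by
  rw [Set.inter_eq_iInter]
  refine Matroid.IsFlat.iInter fun b => ?_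
  cases b
  · exact hB
  · exact hA

/-- **(ii) fails for the distorted family.** -/
theorem not_good_famD {l : ℕ} (hl : 2 ≤ l) :
    ¬ Good (projT (Fintype.card F) (l + 1)) (gn (Fintype.card F) (l + 1))
      (gn (Fintype.card F) (2 * l + 1)) := by
  classical
  intro hg
  obtain ⟨-, h⟩ := hg (famD F l) (isFam_famD l)
  obtain ⟨M, ⟨-, hr, hα⟩, hH⟩ := h.1 (card_famD l)
  obtain ⟨X₀, X₁, X₂, h0, h1, h2, hcard⟩ := three_blocks (F := F) hl
  have f0 := ((hH (blk X₀)).1 (mem_famD.2 ⟨X₀, h0, rfl⟩)).1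
  have f1 := ((hH (blk X₁)).1 (mem_famD.2 ⟨X₁, h1, rfl⟩)).1
  have f2 := ((hH (blk X₂)).1 (mem_famD.2 ⟨X₂, h2, rfl⟩)).1
  have hfl := flat_inter (flat_inter f0 f1) f2
  rw [← Finset.coe_inter, ← Finset.coe_inter] at hfl
  have hle := M.eRk_le_eRank (((blk X₀ ∩ blk X₁ ∩ blk X₂ : Finset _) : Set _))
  rw [hr] at hle
  obtain ⟨i, hi, hi'⟩ := ENat.le_natCast_iff.1 hle
  have h3 := hα i hi' _ hfl hi
  rw [Set.ncard_coe_finset] at h3
  obtain ⟨j, hj⟩ := getD_projT (Fintype.card F) (l + 1) (2 * l + 1) i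
  have h4 := h3.trans hj
  rw [blk, blk, blk, ← Finset.map_inter, ← Finset.map_inter, Finset.card_map] at h4
  exact hcard j h4

/-- The threshold of every projective pair with `m ≥ 3` is at least `1 + q + ... + q^(2m-2)`. -/
theorem threshold_proj {q m : ℕ} (hq : IsPrimePow q) (hm : 3 ≤ m) :
    ¬ Good (projT q m) (gn q m) (gn q (2 * m - 1)) := by
  obtain ⟨p, k, hp, hk, rfl⟩ := (isPrimePow_nat_iff q).1 hq
  haveI : Fact p.Prime := ⟨hp⟩
  haveI : Fintype (GaloisField p k) := Fintype.ofFinite _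
  have hc : Fintype.card (GaloisField p k) = p ^ k := by
    rw [← Nat.card_eq_fintype_card]
    exact GaloisField.card p k hk.ne'
  obtain ⟨l, rfl⟩ : ∃ l, m = l + 1 := ⟨m - 1, by omega⟩
  have h := not_good_famD (F := GaloisField p k) (l := l) (by omega)
  rw [hc] at h
  have h2 : 2 * (l + 1) - 1 = 2 * l + 1 := by omega
  rw [h2]
  exact h

end MP44257e
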